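import Mathlib

/-!
A uniqueness theorem: a function continuous on the closed upper half plane, holomorphic inside and
vanishing on an interval of the real line vanishes on the whole upper half plane. Application to
integrals of `exp (i τ λ(ξ)) G(ξ)`.
-/

open MeasureTheory Complex Set
open scoped Topology

namespace Pool.Agent.H52

noncomputable section

/-- Uniqueness theorem on the half plane. -/
theorem halfPlane_unique {H : ℂ → ℂ} (hc : ContinuousOn H {τ : ℂ | 0 ≤ τ.im})
    (hd : DifferentiableOn ℂ H {τ : ℂ | 0 < τ.im}) {s₁ s₂ : ℝ} (hs : s₁ < s₂)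
    (hz : ∀ t : ℝ, s₁ < t → t < s₂ → H t = 0) :
    ∀ τ : ℂ, 0 < τ.im → H τ = 0 := by
  classical
  set K : ℂ → ℂ := fun τ => if 0 ≤ τ.im then H τ else 0 with hK
  set U : Set ℂ := {τ : ℂ | s₁ < τ.re ∧ τ.re < s₂} with hU
  have hUo : IsOpen U := by
    apply IsOpen.inter
    · exact isOpen_lt continuous_const continuous_re
    · exact isOpen_lt continuous_re continuous_const
  have hKcont : ContinuousOn K U := by
    apply ContinuousOn.if
    · rintro τ ⟨hτU, hτ⟩
      have h0 : τ.im = 0 := by
        have := frontier_le_subset_eq (continuous_const (y := (0:ℝ))) continuous_im hτ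
        exact this.symm
      have : τ = (τ.re : ℂ) := by
        apply Complex.ext <;> simp [h0]
      rw [this]
      exact hz _ hτU.1 hτU.2
    · apply hc.mono
      rintro τ ⟨_, hτ⟩
      have : closure {a : ℂ | 0 ≤ a.im} = {a : ℂ | 0 ≤ a.im} :=
        (isClosed_le continuous_const continuous_im).closure_eq
      rw [this] at hτ
      exact hτ
    · exact continuousOn_const
  -- rectangles touching the real axis
  have rect0 : ∀ x₁ x₂ y : ℝ, s₁ < x₁ → x₁ < s₂ → s₁ < x₂ → x₂ < s₂ →
      (((∫ (x : ℝ) in x₁..x₂, K (↑x + ↑y * I)) - ∫ (x : ℝ) in x₁..x₂, K (↑x + ((0 : ℝ) : ℂ) * I)) +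
        I • ∫ (v : ℝ) in y..(0 : ℝ), K (↑x₂ + ↑v * I)) -
        I • ∫ (v : ℝ) in y..(0 : ℝ), K (↑x₁ + ↑v * I) = 0 := by
    intro x₁ x₂ y h1 h1' h2 h2'
    have hsub : (uIcc x₁ x₂ ×ℂ uIcc y 0) ⊆ U := by
      intro τ hτ
      rw [mem_reProdIm] at hτ
      have := hτ.1
      rw [mem_uIcc] at this
      constructor
      · rcases this with h | h <;> linarith [h.1, h.2]
      · rcases this with h | h <;> linarith [h.1, h.2]
    have := Complex.integral_boundary_rect_eq_zero_of_continuousOn_of_differentiableOn K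
      (⟨x₁, y⟩ : ℂ) (⟨x₂, 0⟩ : ℂ) (hKcont.mono hsub) ?_
    · exact this
    · rcases le_total 0 y with hy | hy
      · -- in the upper half plane `K = H`
        have : DifferentiableOn ℂ H
            (Ioo (min x₁ x₂) (max x₁ x₂) ×ℂ Ioo (min y 0) (max y 0)) := by
          apply hd.mono
          intro τ hτ
          rw [mem_reProdIm] at hτ
          have := hτ.2.1
          rw [min_eq_right hy] at this
          exact this
        apply this.congr
        intro τ hτ
        rw [mem_reProdIm] at hτ
        have := hτ.2.1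
        rw [min_eq_right hy] at this
        simp only [hK]
        rw [if_pos this.le]
      · have : DifferentiableOn ℂ (fun _ : ℂ => (0 : ℂ))
            (Ioo (min x₁ x₂) (max x₁ x₂) ×ℂ Ioo (min y 0) (max y 0)) :=
          differentiableOn_const _
        apply this.congr
        intro τ hτ
        rw [mem_reProdIm] at hτ
        have := hτ.2.2
        rw [max_eq_right hy] at this
        simp only [hK]
        rw [if_neg (not_le.2 this)]
  have hvert : ∀ x y₁ y₂ : ℝ, s₁ < x → x < s₂ →
      IntervalIntegrable (fun v : ℝ => K (↑x + ↑v * I)) volume y₁ y₂ := by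
    intro x y₁ y₂ h1 h2
    apply ContinuousOn.intervalIntegrable
    apply hKcont.comp (by fun_prop)
    intro v _
    simp only [hU, mem_setOf_eq, add_re, ofReal_re, mul_re, I_re, mul_zero, ofReal_im, I_im,
      mul_one, sub_self, add_zero]
    exact ⟨h1, h2⟩
  have hcons : IsConservativeOn K U := by
    intro z w hzw
    rw [← add_eq_zero_iff_eq_neg, wedgeIntegral_add_wedgeIntegral_eq]
    have hzU : z ∈ U := hzw (by
      change z ∈ uIcc z.re w.re ×ℂ uIcc z.im w.im
      rw [mem_reProdIm]; exact ⟨left_mem_uIcc, left_mem_uIcc⟩)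
    have hwU : w ∈ U := hzw (by
      change w ∈ uIcc z.re w.re ×ℂ uIcc z.im w.im
      rw [mem_reProdIm]; exact ⟨right_mem_uIcc, right_mem_uIcc⟩)
    have a1 := rect0 z.re w.re z.im hzU.1 hzU.2 hwU.1 hwU.2
    have a2 := rect0 z.re w.re w.im hzU.1 hzU.2 hwU.1 hwU.2
    have b1 := intervalIntegral.integral_add_adjacent_intervals
      (hvert w.re z.im 0 hwU.1 hwU.2) (hvert w.re 0 w.im hwU.1 hwU.2)
    have b2 := intervalIntegral.integral_add_adjacent_intervals
      (hvert z.re z.im 0 hzU.1 hzU.2) (hvert z.re 0 w.im hzU.1 hzU.2)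
    rw [← b1, ← b2, intervalIntegral.integral_symm w.im 0, intervalIntegral.integral_symm w.im 0]
    simp only [smul_eq_mul] at a1 a2 ⊢
    linear_combination a1 - a2
  have hKd : DifferentiableOn ℂ K U :=
    (isConservativeOn_and_continuousOn_iff_isDifferentiableOn hUo).1 ⟨hcons, hKcont⟩
  have hUconv : Convex ℝ U := by
    apply Convex.inter
    · exact convex_halfSpace_re_gt s₁
    · exact convex_halfSpace_re_lt s₂
  set c : ℝ := (s₁ + s₂) / 2 with hcdef
  have hK0 : EqOn K 0 U := by
    apply (hKd.analyticOnNhd hUo).eqOn_zero_of_preconnected_of_eventuallyEq_zero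
      hUconv.isPreconnected (z₀ := ⟨c, -1⟩)
    · constructor <;> simp only [hcdef] <;> linarith
    · have : {τ : ℂ | τ.im < 0} ∈ 𝓝 (⟨c, -1⟩ : ℂ) := by
        apply (isOpen_lt continuous_im continuous_const).mem_nhds
        simp
      filter_upwards [this] with τ hτ
      simp only [hK]
      rw [if_neg (not_le.2 hτ)]
      rfl
  have hVo : IsOpen {τ : ℂ | 0 < τ.im} := isOpen_lt continuous_const continuous_im
  have hV : Convex ℝ {τ : ℂ | 0 < τ.im} := convex_halfSpace_im_gt 0
  have hH0 : EqOn H 0 {τ : ℂ | 0 < τ.im} := by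
    apply (hd.analyticOnNhd hVo).eqOn_zero_of_preconnected_of_eventuallyEq_zero
      hV.isPreconnected (z₀ := ⟨c, 1⟩)
    · simp
    · have h1 : {τ : ℂ | 0 < τ.im} ∈ 𝓝 (⟨c, 1⟩ : ℂ) := by
        apply hVo.mem_nhds
        simp
      have h2 : U ∈ 𝓝 (⟨c, 1⟩ : ℂ) := by
        apply hUo.mem_nhds
        constructor <;> simp only [hcdef] <;> linarith
      filter_upwards [h1, h2] with τ h1 h2
      have := hK0 h2
      simp only [hK] at this
      rw [if_pos (le_of_lt h1)] at this
      exact this
  intro τ hτ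
  exact hH0 hτ

variable {α : Type*} [MeasurableSpace α] {μ : Measure α}

/-- If the Fourier type integral `∫ exp(i t λ) G` vanishes for `t` in an interval and `λ ≥ 0`, then
`∫ exp(-s λ) G = 0` for all `s > 0`. -/
theorem laplace_eq_zero {G : α → ℂ} (hG : Integrable G μ) {lam : α → ℝ} (hlam : Measurable lam)
    (hlam0 : ∀ a, 0 ≤ lam a) {s₁ s₂ : ℝ} (hs : s₁ < s₂)
    (hz : ∀ t : ℝ, s₁ < t → t < s₂ → ∫ a, cexp (I * t * lam a) * G a ∂μ = 0)
    {s : ℝ} (hspos : 0 < s) : ∫ a, cexp (-(s * lam a)) * G a ∂μ = 0 := by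
  set H : ℂ → ℂ := fun τ => ∫ a, cexp (I * τ * lam a) * G a ∂μ with hH
  have hnorm : ∀ (τ : ℂ) (a : α), ‖cexp (I * τ * lam a)‖ = Real.exp (-(τ.im * lam a)) := by
    intro τ a
    rw [Complex.norm_exp]
    congr 1
    simp [mul_assoc]
  have hmeas : ∀ τ : ℂ, AEStronglyMeasurable (fun a => cexp (I * τ * lam a) * G a) μ := by
    intro τ
    apply AEStronglyMeasurable.mul _ hG.aestronglyMeasurable
    apply Measurable.aestronglyMeasurable
    fun_prop
  have hc : ContinuousOn H {τ : ℂ | 0 ≤ τ.im} := by
    apply continuousOn_of_dominated (bound := fun a => ‖G a‖)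
    · intro τ _
      exact hmeas τ
    · intro τ hτ
      filter_upwards with a
      rw [norm_mul, hnorm]
      have : Real.exp (-(τ.im * lam a)) ≤ 1 := by
        rw [Real.exp_le_one_iff]
        have := mul_nonneg hτ (hlam0 a)
        linarith
      calc _ ≤ 1 * ‖G a‖ := by gcongr
        _ = _ := one_mul _
    · exact hG.norm
    · filter_upwards with a
      fun_prop
  have hd : DifferentiableOn ℂ H {τ : ℂ | 0 < τ.im} := by
    intro τ₀ hτ₀
    have hτ₀' : 0 < τ₀.im := hτ₀
    apply DifferentiableAt.differentiableWithinAt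
    have hnhds : {τ : ℂ | τ₀.im / 2 < τ.im} ∈ 𝓝 τ₀ := by
      apply (isOpen_lt continuous_const continuous_im).mem_nhds
      simp only [mem_setOf_eq]
      linarith
    have := hasDerivAt_integral_of_dominated_loc_of_deriv_le (μ := μ) (𝕜 := ℂ)
      (F := fun (τ : ℂ) a => cexp (I * τ * lam a) * G a)
      (F' := fun (τ : ℂ) a => (cexp (I * τ * lam a) * (I * lam a)) * G a) (x₀ := τ₀)
      (bound := fun a => (2 / τ₀.im) * ‖G a‖) hnhds
      (Filter.Eventually.of_forall hmeas) ?_ ?_ ?_ ?_ ?_
    · exact this.2.differentiableAt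
    · apply Integrable.mono hG (hmeas τ₀)
      filter_upwards with a
      rw [norm_mul, hnorm]
      have : Real.exp (-(τ₀.im * lam a)) ≤ 1 := by
        rw [Real.exp_le_one_iff]
        have := mul_nonneg hτ₀'.le (hlam0 a)
        linarith
      calc _ ≤ 1 * ‖G a‖ := by gcongr
        _ = _ := one_mul _
    · apply AEStronglyMeasurable.mul _ hG.aestronglyMeasurable
      apply Measurable.aestronglyMeasurable
      fun_prop
    · filter_upwards with a
      intro τ hτ
      have hτ' : τ₀.im / 2 < τ.im := hτ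
      rw [norm_mul, norm_mul, hnorm]
      gcongr
      rw [norm_mul, Complex.norm_I, one_mul, Complex.norm_real, Real.norm_eq_abs,
        abs_of_nonneg (hlam0 a)]
      -- `exp(-y l) * l ≤ 2 / τ₀.im` for `y ≥ τ₀.im/2`
      have h1 : τ.im * lam a + 1 ≤ Real.exp (τ.im * lam a) := Real.add_one_le_exp _
      rw [Real.exp_neg, inv_mul_le_iff₀ (Real.exp_pos _)]
      have h2 : lam a ≤ (2 / τ₀.im) * (τ.im * lam a) := by
        have : 1 ≤ (2 / τ₀.im) * τ.im := by
          rw [div_mul_eq_mul_div, le_div_iff₀ hτ₀']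
          linarith
        nlinarith [hlam0 a]
      calc lam a ≤ (2 / τ₀.im) * (τ.im * lam a) := h2
        _ ≤ (2 / τ₀.im) * Real.exp (τ.im * lam a) := by
            have : 0 < 2 / τ₀.im := by positivity
            nlinarith
        _ = _ := by ring
    · exact hG.norm.const_mul _
    · filter_upwards with a
      intro τ _
      apply HasDerivAt.mul_const
      have h1 : HasDerivAt (fun τ : ℂ => I * τ * lam a) (I * lam a) τ := by
        have := ((hasDerivAt_id τ).const_mul I).mul_const (lam a : ℂ)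
        simpa using this
      exact h1.cexp
  have h0 := halfPlane_unique hc hd hs (fun t h1 h2 => hz t h1 h2) (I * s) (by simpa using hspos)
  simp only [hH] at h0
  rw [← h0]
  congr 1
  ext a
  congr 2
  have := I_mul_I
  linear_combination (-(s * lam a) : ℂ) * this

end

end Pool.Agent.H52
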