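import Mathlib

/-!
Plancherel for functions which are both integrable and square integrable: the Fourier integral
agrees with the `L²` Fourier transform.
-/

open MeasureTheory FourierTransform SchwartzMap
open scoped ENNReal

namespace Pool.Agent.H52

noncomputable section

variable {E : Type*} [NormedAddCommGroup E] [InnerProductSpace ℝ E] [FiniteDimensional ℝ E]
  [MeasurableSpace E] [BorelSpace E]

/-- The Fourier integral of an integrable function is continuous. -/
theorem continuous_fourier_of_integrable {f : E → ℂ} (hf1 : Integrable f) :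
    Continuous (𝓕 f) := by
  have h := VectorFourier.fourierIntegral_continuous (e := Real.fourierChar)
    (μ := (volume : Measure E)) (L := innerₗ E) (f := f) Real.continuous_fourierChar
    (by exact continuous_inner) hf1
  exact h

/-- For an integrable and square integrable function, the `L²` Fourier transform is the Fourier
integral. -/
theorem fourier_toLp_ae_eq {f : E → ℂ} (hf1 : Integrable f) (hf2 : MemLp f 2) :
    ((𝓕 (hf2.toLp f) : Lp ℂ 2 (volume : Measure E)) : E → ℂ) =ᵐ[volume] 𝓕 f := by
  set h : Lp ℂ 2 (volume : Measure E) := 𝓕 (hf2.toLp f) with hh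
  have hcont : Continuous (𝓕 f) := continuous_fourier_of_integrable hf1
  have hloc : LocallyIntegrable (fun x => (h : E → ℂ) x - 𝓕 f x) volume := by
    exact ((Lp.memLp h).locallyIntegrable (by norm_num)).sub hcont.locallyIntegrable
  have key : ∀ᵐ x ∂(volume : Measure E), (h : E → ℂ) x - 𝓕 f x = 0 := by
    apply ae_eq_zero_of_integral_contDiff_smul_eq_zero hloc
    intro g g_smooth g_cpt
    have hg₁ : HasCompactSupport (Complex.ofRealCLM ∘ g) := g_cpt.comp_left rfl
    have hg₂ : ContDiff ℝ (⊤ : ℕ∞) (Complex.ofRealCLM ∘ g) := by fun_prop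
    set G : 𝓢(E, ℂ) := hg₁.toSchwartzMap hg₂ with hG
    have hGapp : ∀ x, G x = (g x : ℂ) := fun x => rfl
    have e1 : (∫ x, G x • (h : E → ℂ) x) = ∫ x, (𝓕 G) x • f x := by
      have a1 := Lp.fourier_toTemperedDistribution_eq (hf2.toLp f)
      have a2 := congrArg (fun D : 𝓢'(E, ℂ) => D G) a1
      simp only [TemperedDistribution.fourier_apply, Lp.toTemperedDistribution_apply] at a2
      rw [hh, ← a2]
      apply integral_congr_ae
      filter_upwards [hf2.coeFn_toLp] with x hx
      rw [hx]
    have e2 : (∫ x, (𝓕 G) x • f x) = ∫ x, G x • (𝓕 f) x := by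
      have := VectorFourier.integral_fourierIntegral_smul_eq_flip (e := Real.fourierChar)
        (μ := (volume : Measure E)) (ν := (volume : Measure E)) (L := innerₗ E) (f := G) (g := f)
        Real.continuous_fourierChar (by exact continuous_inner) G.integrable hf1
      rw [flip_innerₗ] at this
      exact this
    have i1 : Integrable (fun x => G x • (h : E → ℂ) x) := by
      have : MemLp (fun x => (G x)) 2 volume := G.memLp 2
      exact MemLp.integrable_mul this (Lp.memLp h)
    have i2 : Integrable (fun x => G x • (𝓕 f) x) := by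
      have hc : Continuous (fun x => G x • (𝓕 f) x) := G.continuous.mul hcont
      exact hc.integrable_of_hasCompactSupport (hg₁.mul_right)
    have : ∫ x, g x • ((h : E → ℂ) x - 𝓕 f x) = ∫ x, (G x • (h : E → ℂ) x - G x • 𝓕 f x) := by
      apply integral_congr_ae
      filter_upwards with x
      rw [hGapp, ← smul_sub]
      rfl
    rw [this, integral_sub i1 i2, e1, e2, sub_self]
  filter_upwards [key] with x hx
  exact sub_eq_zero.mp hx

/-- Plancherel, in terms of extended nonnegative integrals. -/
theorem lintegral_fourier_sq {f : E → ℂ} (hf1 : Integrable f) (hf2 : MemLp f 2) :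
    ∫⁻ x, ‖𝓕 f x‖ₑ ^ 2 = ∫⁻ x, ‖f x‖ₑ ^ 2 := by
  have h1 := fourier_toLp_ae_eq hf1 hf2
  have h2 : eLpNorm (𝓕 f) 2 volume = eLpNorm f 2 volume := by
    rw [← eLpNorm_congr_ae h1, ← Lp.enorm_def, ← Lp.enorm_toLp hf2]
    rw [← ofReal_norm_eq_enorm, ← ofReal_norm_eq_enorm, Lp.norm_fourier_eq]
  have h3 : ∀ g : E → ℂ, eLpNorm g 2 volume ^ 2 = ∫⁻ x, ‖g x‖ₑ ^ 2 := by
    intro g
    rw [eLpNorm_eq_lintegral_rpow_enorm_toReal (by norm_num) (by norm_num)]
    simp only [ENNReal.toReal_ofNat, one_div]
    rw [← ENNReal.rpow_natCast, ← ENNReal.rpow_mul]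
    norm_num
  rw [← h3, ← h3, h2]

theorem memLp_fourier {f : E → ℂ} (hf1 : Integrable f) (hf2 : MemLp f 2) :
    MemLp (𝓕 f) 2 volume :=
  (memLp_congr_ae (fourier_toLp_ae_eq hf1 hf2)).1 (Lp.memLp _)

end

end Pool.Agent.H52
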