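import Mathlib
import Pool.Agent.H52.Plancherel
import Pool.Agent.H52.HalfPlane

/-!
Unique continuation for the free Schrödinger equation, on the Fourier side: a solution with data in
`L²` which vanishes on an open cylinder (time interval) x (ball) is zero.
-/

open MeasureTheory Complex Set FourierTransform Metric
open scoped Topology ENNReal

namespace Pool.Agent.H52

noncomputable section

set_option linter.unusedSectionVars false

variable {E : Type*} [NormedAddCommGroup E] [InnerProductSpace ℝ E] [FiniteDimensional ℝ E]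
  [MeasurableSpace E] [BorelSpace E]

/-- The multiplier of the Schrödinger flow `exp(-i t Δ)` with the normalisation
`𝓕 f ξ = ∫ exp(-2 π i ⟨x, ξ⟩) f x`. -/
def ph (t : ℝ) (ξ : E) : ℂ := cexp ((4 * Real.pi ^ 2 * t * ‖ξ‖ ^ 2 : ℝ) * I)

theorem norm_ph (t : ℝ) (ξ : E) : ‖ph t ξ‖ = 1 := by
  rw [ph, Complex.norm_exp_ofReal_mul_I]

theorem enorm_ph (t : ℝ) (ξ : E) : ‖ph t ξ‖ₑ = 1 := by
  rw [← ofReal_norm, norm_ph]; simp

theorem continuous_ph : Continuous (fun p : ℝ × E => ph p.1 p.2) := by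
  unfold ph
  fun_prop

theorem continuous_ph_right (t : ℝ) : Continuous (fun ξ : E => ph t ξ) := by
  unfold ph
  fun_prop

theorem continuous_ph_left (ξ : E) : Continuous (fun t : ℝ => ph t ξ) := by
  unfold ph
  fun_prop

theorem memLp_fourierInv {f : E → ℂ} (hf1 : Integrable f) (hf2 : MemLp f 2) :
    MemLp (𝓕⁻ f) 2 volume := by
  rw [Real.fourierInv_eq_fourier_comp_neg]
  apply memLp_fourier hf1.comp_neg
  exact hf2.comp_measurePreserving (Measure.measurePreserving_neg _)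

theorem lintegral_fourierInv_sq {f : E → ℂ} (hf1 : Integrable f) (hf2 : MemLp f 2) :
    ∫⁻ x, ‖𝓕⁻ f x‖ₑ ^ 2 = ∫⁻ x, ‖f x‖ₑ ^ 2 := by
  rw [Real.fourierInv_eq_fourier_comp_neg]
  rw [lintegral_fourier_sq hf1.comp_neg
    (hf2.comp_measurePreserving (Measure.measurePreserving_neg _))]
  exact lintegral_neg_eq_self (fun x => ‖f x‖ₑ ^ 2)

theorem continuous_fourierInv_of_integrable {f : E → ℂ} (hf1 : Integrable f) :
    Continuous (𝓕⁻ f) := by
  rw [Real.fourierInv_eq_fourier_comp_neg]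
  exact continuous_fourier_of_integrable hf1.comp_neg

/-- Multiplication formula for the inverse Fourier transform. -/
theorem integral_fourierInv_mul {f g : E → ℂ} (hf : Integrable f) (hg : Integrable g) :
    ∫ ξ, 𝓕⁻ f ξ * g ξ = ∫ x, f x * 𝓕⁻ g x := by
  have h1 : ∀ ξ, 𝓕⁻ f ξ = 𝓕 (fun x => f (-x)) ξ := by
    intro ξ; rw [Real.fourierInv_eq_fourier_comp_neg]
  have := VectorFourier.integral_fourierIntegral_smul_eq_flip (e := Real.fourierChar)
        (μ := (volume : Measure E)) (ν := (volume : Measure E)) (L := innerₗ E)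
        (f := fun x => f (-x)) (g := g)
        Real.continuous_fourierChar (by exact continuous_inner) hf.comp_neg hg
  rw [flip_innerₗ] at this
  have e1 : ∫ ξ, 𝓕⁻ f ξ * g ξ = ∫ x, f (-x) * 𝓕 g x := by
    simp_rw [h1]
    exact this
  rw [e1, ← integral_neg_eq_self]
  simp only [neg_neg]
  congr 1
  ext x
  rw [Real.fourierInv_eq_fourier_neg]

/-- The function `ζ ↦ ∫ exp(2πi (⟨z, ξ⟩ + ζ ⟨v, ξ⟩)) exp(-a ‖ξ‖²) g ξ` is entire. -/
theorem differentiable_gaussian_integral {g : E → ℂ} (hg : Integrable g) (z v : E) {a : ℝ}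
    (ha : 1 ≤ a) :
    Differentiable ℂ (fun ζ : ℂ => ∫ ξ, cexp (2 * Real.pi * I * ((inner ℝ z ξ : ℝ) +
      ζ * (inner ℝ v ξ : ℝ))) * (Real.exp (-(a * ‖ξ‖ ^ 2)) * g ξ)) := by
  intro ζ₀
  set R : ℝ := ‖ζ₀‖ + 1 with hR
  have hR0 : 0 < R := by positivity
  set c : ℝ := (2 * Real.pi * ‖v‖) * R + 1 with hc
  have hexpbound : ∀ ξ : E, ∀ ζ : ℂ, ζ ∈ ball (0 : ℂ) R →
      ‖cexp (2 * Real.pi * I * ((inner ℝ z ξ : ℝ) + ζ * (inner ℝ v ξ : ℝ)))‖ ≤
        Real.exp ((2 * Real.pi * ‖v‖) * R * ‖ξ‖) := by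
    intro ξ ζ hζ
    rw [Complex.norm_exp]
    gcongr
    have : (2 * Real.pi * I * ((inner ℝ z ξ : ℝ) + ζ * (inner ℝ v ξ : ℝ))).re
        = -(2 * Real.pi * ζ.im * inner ℝ v ξ) := by
      simp
      ring
    rw [this]
    have h1 : |inner ℝ v ξ| ≤ ‖v‖ * ‖ξ‖ := abs_real_inner_le_norm _ _
    have h2 : |ζ.im| ≤ R := by
      have := Complex.abs_im_le_norm ζ
      rw [mem_ball_zero_iff] at hζ
      linarith
    calc -(2 * Real.pi * ζ.im * inner ℝ v ξ) ≤ |2 * Real.pi * ζ.im * inner ℝ v ξ| := neg_le_abs _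
      _ = 2 * Real.pi * |ζ.im| * |inner ℝ v ξ| := by
          rw [abs_mul, abs_mul, abs_mul, abs_of_pos Real.pi_pos]; norm_num
      _ ≤ 2 * Real.pi * R * (‖v‖ * ‖ξ‖) := by
          have := Real.pi_pos
          gcongr
      _ = _ := by ring
  have hmeas : ∀ ζ : ℂ, AEStronglyMeasurable (fun ξ : E => cexp (2 * Real.pi * I *
      ((inner ℝ z ξ : ℝ) + ζ * (inner ℝ v ξ : ℝ))) * (Real.exp (-(a * ‖ξ‖ ^ 2)) * g ξ)) := by
    intro ζ
    apply AEStronglyMeasurable.mul
    · apply Continuous.aestronglyMeasurable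
      fun_prop
    · apply AEStronglyMeasurable.mul _ hg.aestronglyMeasurable
      apply Continuous.aestronglyMeasurable
      fun_prop
  -- the key bound
  have hkey : ∀ ξ : E, Real.exp ((2 * Real.pi * ‖v‖) * R * ‖ξ‖) *
      (2 * Real.pi * (‖v‖ * ‖ξ‖) + 1) * Real.exp (-(a * ‖ξ‖ ^ 2)) ≤
        (2 * Real.pi * ‖v‖ + 1) * Real.exp (c ^ 2 / 4) := by
    intro ξ
    have hx : ‖ξ‖ ≤ Real.exp ‖ξ‖ := by
      have := Real.add_one_le_exp ‖ξ‖
      linarith
    have h1 : 1 ≤ Real.exp ‖ξ‖ := Real.one_le_exp (norm_nonneg _)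
    have hpi := Real.pi_pos
    have h2 : 2 * Real.pi * (‖v‖ * ‖ξ‖) + 1 ≤ (2 * Real.pi * ‖v‖ + 1) * Real.exp ‖ξ‖ := by
      have : 2 * Real.pi * (‖v‖ * ‖ξ‖) ≤ 2 * Real.pi * ‖v‖ * Real.exp ‖ξ‖ := by
        rw [← mul_assoc]
        gcongr
      linarith
    have h3 : Real.exp ((2 * Real.pi * ‖v‖) * R * ‖ξ‖) * Real.exp ‖ξ‖ *
        Real.exp (-(a * ‖ξ‖ ^ 2)) ≤ Real.exp (c ^ 2 / 4) := by
      rw [← Real.exp_add, ← Real.exp_add]
      apply Real.exp_le_exp.2
      have h4 : ‖ξ‖ ^ 2 ≤ a * ‖ξ‖ ^ 2 := by nlinarith [sq_nonneg ‖ξ‖]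
      have h5 : c * ‖ξ‖ ≤ c ^ 2 / 4 + ‖ξ‖ ^ 2 := by nlinarith [sq_nonneg (c / 2 - ‖ξ‖)]
      have h6 : (2 * Real.pi * ‖v‖) * R * ‖ξ‖ + ‖ξ‖ = c * ‖ξ‖ := by rw [hc]; ring
      linarith
    calc _ ≤ Real.exp ((2 * Real.pi * ‖v‖) * R * ‖ξ‖) *
      ((2 * Real.pi * ‖v‖ + 1) * Real.exp ‖ξ‖) * Real.exp (-(a * ‖ξ‖ ^ 2)) := by gcongr
      _ = (2 * Real.pi * ‖v‖ + 1) * (Real.exp ((2 * Real.pi * ‖v‖) * R * ‖ξ‖) * Real.exp ‖ξ‖ *
        Real.exp (-(a * ‖ξ‖ ^ 2))) := by ring
      _ ≤ _ := by gcongr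
  have hball : ball (0 : ℂ) R ∈ 𝓝 ζ₀ := by
    apply isOpen_ball.mem_nhds
    rw [mem_ball_zero_iff, hR]; linarith
  have hbd : ∀ ξ : E, ∀ ζ : ℂ, ζ ∈ ball (0 : ℂ) R →
      ‖cexp (2 * Real.pi * I * ((inner ℝ z ξ : ℝ) + ζ * (inner ℝ v ξ : ℝ)))‖ *
        (2 * Real.pi * (‖v‖ * ‖ξ‖) + 1) * Real.exp (-(a * ‖ξ‖ ^ 2)) ≤
        (2 * Real.pi * ‖v‖ + 1) * Real.exp (c ^ 2 / 4) := by
    intro ξ ζ hζ
    refine le_trans ?_ (hkey ξ)
    have := Real.pi_pos
    gcongr
    exact hexpbound ξ ζ hζ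
  have := hasDerivAt_integral_of_dominated_loc_of_deriv_le (μ := (volume : Measure E)) (𝕜 := ℂ)
      (F := fun (ζ : ℂ) (ξ : E) => cexp (2 * Real.pi * I * ((inner ℝ z ξ : ℝ) +
        ζ * (inner ℝ v ξ : ℝ))) * (Real.exp (-(a * ‖ξ‖ ^ 2)) * g ξ))
      (F' := fun (ζ : ℂ) (ξ : E) => (cexp (2 * Real.pi * I * ((inner ℝ z ξ : ℝ) +
        ζ * (inner ℝ v ξ : ℝ))) * (2 * Real.pi * I * (inner ℝ v ξ : ℝ))) *
          (Real.exp (-(a * ‖ξ‖ ^ 2)) * g ξ)) (x₀ := ζ₀)
      (bound := fun ξ => (2 * Real.pi * ‖v‖ + 1) * Real.exp (c ^ 2 / 4) * ‖g ξ‖) hball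
      (Filter.Eventually.of_forall hmeas) ?_ ?_ ?_ ?_ ?_
  · exact this.2.differentiableAt
  · apply Integrable.mono' (hg.norm.const_mul ((2 * Real.pi * ‖v‖ + 1) * Real.exp (c ^ 2 / 4)))
      (hmeas ζ₀)
    filter_upwards with ξ
    rw [norm_mul, norm_mul, Complex.norm_real, Real.norm_eq_abs, abs_of_pos (Real.exp_pos _),
      ← mul_assoc]
    refine mul_le_mul_of_nonneg_right ?_ (norm_nonneg _)
    refine le_trans ?_ (hbd ξ ζ₀ (mem_of_mem_nhds hball))
    have hpi := Real.pi_pos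
    have : 0 ≤ 2 * Real.pi * (‖v‖ * ‖ξ‖) := by positivity
    calc _ = ‖cexp (2 * Real.pi * I * ((inner ℝ z ξ : ℝ) + ζ₀ * (inner ℝ v ξ : ℝ)))‖ * 1 *
        Real.exp (-(a * ‖ξ‖ ^ 2)) := by ring
      _ ≤ _ := by gcongr; linarith
  · apply AEStronglyMeasurable.mul
    · apply Continuous.aestronglyMeasurable
      fun_prop
    · apply AEStronglyMeasurable.mul _ hg.aestronglyMeasurable
      apply Continuous.aestronglyMeasurable
      fun_prop
  · filter_upwards with ξ
    intro ζ hζ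
    rw [norm_mul, norm_mul, norm_mul (Real.exp _ : ℂ), Complex.norm_real, Real.norm_eq_abs,
      abs_of_pos (Real.exp_pos _), ← mul_assoc]
    refine mul_le_mul_of_nonneg_right ?_ (norm_nonneg _)
    refine le_trans ?_ (hbd ξ ζ hζ)
    have hpi := Real.pi_pos
    gcongr
    have h1 : |inner ℝ v ξ| ≤ ‖v‖ * ‖ξ‖ := abs_real_inner_le_norm _ _
    have h2 : ‖(2 * Real.pi * I * (inner ℝ v ξ : ℝ) : ℂ)‖ = 2 * Real.pi * |inner ℝ v ξ| := by
      rw [norm_mul, norm_mul, norm_mul, Complex.norm_I, Complex.norm_real, Complex.norm_real,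
        Real.norm_eq_abs, Real.norm_eq_abs, abs_of_pos hpi]
      simp
    rw [h2]
    have : 2 * Real.pi * |inner ℝ v ξ| ≤ 2 * Real.pi * (‖v‖ * ‖ξ‖) := by gcongr
    linarith
  · exact hg.norm.const_mul _
  · filter_upwards with ξ
    intro ζ _
    apply HasDerivAt.mul_const
    have h1 : HasDerivAt (fun ζ : ℂ => 2 * Real.pi * I * ((inner ℝ z ξ : ℝ) +
        ζ * (inner ℝ v ξ : ℝ))) (2 * Real.pi * I * (inner ℝ v ξ : ℝ)) ζ := by
      have := (((hasDerivAt_id ζ).mul_const ((inner ℝ v ξ : ℝ) : ℂ)).const_add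
        ((inner ℝ z ξ : ℝ) : ℂ)).const_mul (2 * Real.pi * I)
      simpa using this
    exact h1.cexp

theorem integrable_gaussian {b : ℝ} (hb : 0 < b) :
    Integrable (fun ξ : E => Real.exp (-(b * ‖ξ‖ ^ 2))) := by
  have := GaussianFourier.integrable_cexp_neg_mul_sq_norm_add (V := E) (b := (b : ℂ))
    (by simpa using hb) 0 0
  have h2 := this.norm
  refine h2.congr ?_
  filter_upwards with ξ
  rw [Complex.norm_exp]
  congr 1
  simp only [neg_mul, inner_zero_left, ofReal_zero, mul_zero, add_zero, neg_re]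
  norm_cast

theorem memLp_gaussian {b : ℝ} (hb : 0 < b) :
    MemLp (fun ξ : E => (Real.exp (-(b * ‖ξ‖ ^ 2)) : ℂ)) 2 volume := by
  rw [memLp_two_iff_integrable_sq_norm]
  · have := integrable_gaussian (E := E) (b := 2 * b) (by positivity)
    refine this.congr ?_
    filter_upwards with ξ
    rw [Complex.norm_real, Real.norm_eq_abs, abs_of_pos (Real.exp_pos _), ← Real.exp_nat_mul]
    congr 1
    push_cast
    ring
  · apply Continuous.aestronglyMeasurable
    fun_prop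

/-- Unique continuation for the free Schrödinger equation. -/
theorem schrodinger_unique {h : E → ℂ} (hh : MemLp h 2) {z : E} {r : ℝ} (hr : 0 < r)
    {s₁ s₂ : ℝ} (hs : s₁ < s₂)
    (hz : ∀ φ : E → ℂ, Continuous φ → HasCompactSupport φ → tsupport φ ⊆ ball z r →
      ∀ t : ℝ, s₁ < t → t < s₂ → ∫ ξ, 𝓕⁻ φ ξ * (ph t ξ * h ξ) = 0) :
    h =ᵐ[volume] 0 := by
  have hpi : (3 : ℝ) < Real.pi := Real.pi_gt_three
  set w : E → ℂ := fun ξ => (Real.exp (-(4 * Real.pi ^ 2 * ‖ξ‖ ^ 2)) : ℂ) * h ξ with hw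
  set g₀ : E → ℂ := fun ξ => (Real.exp (-(1 * ‖ξ‖ ^ 2)) : ℂ) * h ξ with hg₀
  have hg₀i : Integrable g₀ := (memLp_gaussian (E := E) (b := 1) one_pos).integrable_mul hh
  have hwi : Integrable w :=
    (memLp_gaussian (E := E) (b := 4 * Real.pi ^ 2) (by positivity)).integrable_mul hh
  have hw2 : MemLp w 2 := by
    apply MemLp.of_le hh
    · apply AEStronglyMeasurable.mul _ hh.aestronglyMeasurable
      apply Continuous.aestronglyMeasurable
      fun_prop
    · filter_upwards with ξ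
      simp only [hw]
      rw [norm_mul, Complex.norm_real, Real.norm_eq_abs, abs_of_pos (Real.exp_pos _)]
      have : Real.exp (-(4 * Real.pi ^ 2 * ‖ξ‖ ^ 2)) ≤ 1 := by
        rw [Real.exp_le_one_iff]
        have : 0 ≤ 4 * Real.pi ^ 2 * ‖ξ‖ ^ 2 := by positivity
        linarith
      calc _ ≤ 1 * ‖h ξ‖ := by gcongr
        _ = _ := one_mul _
  have hWcont : Continuous (𝓕⁻ w) := continuous_fourierInv_of_integrable hwi
  -- step 1: test against functions supported in the ball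
  have step1 : ∀ φ : E → ℂ, Continuous φ → HasCompactSupport φ → tsupport φ ⊆ ball z r →
      ∫ x, φ x * 𝓕⁻ w x = 0 := by
    intro φ h1 h2 h3
    have hφi : Integrable φ := h1.integrable_of_hasCompactSupport h2
    have hφ2 : MemLp φ 2 := h1.memLp_of_hasCompactSupport h2
    have hG : Integrable (fun ξ => 𝓕⁻ φ ξ * h ξ) := (memLp_fourierInv hφi hφ2).integrable_mul hh
    rw [← integral_fourierInv_mul hφi hwi]
    have := laplace_eq_zero hG (lam := fun ξ : E => 4 * Real.pi ^ 2 * ‖ξ‖ ^ 2) (by fun_prop)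
      (by intro ξ; positivity) hs ?_ one_pos
    · rw [← this]
      congr 1
      ext ξ
      simp only [hw]
      push_cast
      ring_nf
    · intro t ht1 ht2
      rw [← hz φ h1 h2 h3 t ht1 ht2]
      congr 1
      ext ξ
      rw [ph]
      push_cast
      ring_nf
  -- step 2: the function vanishes on the ball
  have step2 : ∀ x ∈ ball z r, 𝓕⁻ w x = 0 := by
    have h1 : ∀ᵐ x ∂(volume : Measure E), x ∈ ball z r → 𝓕⁻ w x = 0 := by
      apply isOpen_ball.ae_eq_zero_of_integral_contDiff_smul_eq_zero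
      · exact hWcont.locallyIntegrable.locallyIntegrableOn _
      · intro g g1 g2 g3
        have := step1 (fun x => (g x : ℂ)) (by
            have := g1.continuous
            fun_prop) (g2.comp_left (g := fun y : ℝ => (y : ℂ)) rfl) (by
            refine subset_trans ?_ g3
            apply closure_mono
            intro x hx hx'
            apply hx
            simp [hx'])
        rw [← this]
        congr 1
    have h2 : EqOn (𝓕⁻ w) (fun _ => 0) (ball z r) := by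
      apply Measure.eqOn_open_of_ae_eq (μ := (volume : Measure E)) _ isOpen_ball
        hWcont.continuousOn continuousOn_const
      rw [Filter.EventuallyEq, ae_restrict_iff' measurableSet_ball]
      exact h1
    exact h2
  -- step 3: analyticity
  have step3 : ∀ x : E, 𝓕⁻ w x = 0 := by
    intro x
    have ha : (1 : ℝ) ≤ 4 * Real.pi ^ 2 - 1 := by nlinarith
    set Q : ℂ → ℂ := fun ζ : ℂ => ∫ ξ, cexp (2 * Real.pi * I * ((inner ℝ z ξ : ℝ) +
      ζ * (inner ℝ (x - z) ξ : ℝ))) * (Real.exp (-((4 * Real.pi ^ 2 - 1) * ‖ξ‖ ^ 2)) * g₀ ξ) with hQ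
    have hQd : Differentiable ℂ Q := differentiable_gaussian_integral hg₀i z (x - z) ha
    have hQr : ∀ s : ℝ, Q s = 𝓕⁻ w (z + s • (x - z)) := by
      intro s
      rw [hQ, Real.fourierInv_eq']
      apply integral_congr_ae
      filter_upwards with ξ
      rw [smul_eq_mul]
      congr 1
      · congr 1
        rw [inner_add_right, inner_smul_right, real_inner_comm, real_inner_comm ξ (x - z)]
        push_cast
        ring
      · simp only [hw, hg₀]
        rw [← mul_assoc]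
        congr 1
        rw [← ofReal_mul, ← Real.exp_add]
        congr 2
        ring
    have hfreq : ∃ᶠ ζ in 𝓝[≠] (0 : ℂ), Q ζ = 0 := by
      have htend : Filter.Tendsto (fun s : ℝ => (s : ℂ)) (𝓝[≠] 0) (𝓝[≠] 0) := by
        apply tendsto_nhdsWithin_of_tendsto_nhds_of_eventually_within
        · have : Continuous (fun s : ℝ => (s : ℂ)) := continuous_ofReal
          have h := this.tendsto 0
          rw [ofReal_zero] at h
          exact h.mono_left nhdsWithin_le_nhds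
        · filter_upwards [self_mem_nhdsWithin] with s hs
          simpa using hs
      have hev : ∀ᶠ s : ℝ in 𝓝[≠] (0 : ℝ), Q s = 0 := by
        have hc : Continuous (fun s : ℝ => z + s • (x - z)) := by fun_prop
        have : ∀ᶠ s : ℝ in 𝓝 (0 : ℝ), z + s • (x - z) ∈ ball z r := by
          apply hc.continuousAt.eventually_mem
          apply isOpen_ball.mem_nhds
          simpa using hr
        filter_upwards [this.filter_mono nhdsWithin_le_nhds] with s hs
        rw [hQr]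
        exact step2 _ hs
      exact htend.frequently hev.frequently
    have hQ0 : EqOn Q 0 univ := by
      apply AnalyticOnNhd.eqOn_zero_of_preconnected_of_frequently_eq_zero
        (hQd.differentiableOn.analyticOnNhd isOpen_univ) isPreconnected_univ (mem_univ 0) hfreq
    have := hQ0 (mem_univ ((1 : ℝ) : ℂ))
    rw [hQr] at this
    simpa using this
  -- conclusion by Plancherel
  have h0 : ∫⁻ ξ, ‖w ξ‖ₑ ^ 2 = 0 := by
    rw [← lintegral_fourierInv_sq hwi hw2]
    simp [step3]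
  rw [lintegral_eq_zero_iff' (hwi.aestronglyMeasurable.enorm.pow_const 2)] at h0
  filter_upwards [h0] with ξ hξ
  simp only [Pi.zero_apply, ne_eq, OfNat.ofNat_ne_zero, not_false_eq_true, pow_eq_zero_iff,
    enorm_eq_zero, hw, mul_eq_zero, ofReal_eq_zero, Real.exp_ne_zero, false_or] at hξ
  exact hξ

attribute [irreducible] ph

end

end Pool.Agent.H52
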