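import Mathlib
import Pool.Agent.H52.Plancherel
import Pool.Agent.H52.HalfPlane
import Pool.Agent.H52.Uniq

/-!
Exact phase space localisation for the Schrödinger flow.
-/

open MeasureTheory Complex Set FourierTransform Metric
open scoped Topology ENNReal

namespace Pool.Agent.H52

noncomputable section

set_option linter.unusedSectionVars false

variable {E : Type*} [NormedAddCommGroup E] [InnerProductSpace ℝ E] [FiniteDimensional ℝ E]
  [MeasurableSpace E] [BorelSpace E]

/-- Bounded measurable functions with bounded support. -/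
structure BB (f : E → ℂ) : Prop where
  meas : Measurable f
  bdd : ∃ M : ℝ, 0 ≤ M ∧ ∀ x, ‖f x‖ ≤ M
  supp : ∃ R : ℝ, 0 ≤ R ∧ ∀ x, R < ‖x‖ → f x = 0

/-- `ee s = exp (2 π i s)`. -/
def ee (s : ℝ) : ℂ := cexp ((2 * Real.pi * s : ℝ) * I)

theorem norm_ee (s : ℝ) : ‖ee s‖ = 1 := by
  rw [ee, Complex.norm_exp_ofReal_mul_I]

theorem enorm_ee (s : ℝ) : ‖ee s‖ₑ = 1 := by
  rw [← ofReal_norm, norm_ee]; simp

theorem ee_add (s t : ℝ) : ee (s + t) = ee s * ee t := by
  rw [ee, ee, ee, ← Complex.exp_add]
  congr 1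
  push_cast
  ring

theorem continuous_ee : Continuous ee := by
  unfold ee
  fun_prop

theorem ph_eq_ee (t : ℝ) (ξ : E) : ph t ξ = ee (2 * Real.pi * t * ‖ξ‖ ^ 2) := by
  rw [ph, ee]
  congr 2
  norm_cast
  ring

theorem fourierInv_eq_ee (f : E → ℂ) (x : E) : 𝓕⁻ f x = ∫ ξ, ee (inner ℝ ξ x) * f ξ := by
  rw [Real.fourierInv_eq']
  rfl

theorem fourier_eq_ee (f : E → ℂ) (x : E) : 𝓕 f x = ∫ ξ, ee (-inner ℝ ξ x) * f ξ := by
  rw [Real.fourier_eq']
  congr 1
  ext v
  rw [smul_eq_mul, ee]
  congr 3
  push_cast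
  ring

namespace BB

theorem measurableSet_aux {f : E → ℂ} {R : ℝ} (h : ∀ x, R < ‖x‖ → f x = 0) :
    Function.support f ⊆ closedBall 0 R := by
  intro x hx
  rw [mem_closedBall_zero_iff]
  by_contra hcon
  exact hx (h x (not_le.1 hcon))

theorem integrable {f : E → ℂ} (hf : BB f) : Integrable f := by
  obtain ⟨R, _, hR⟩ := hf.supp
  obtain ⟨M, _, hM⟩ := hf.bdd
  have h1 : IntegrableOn f (closedBall 0 R) := by
    apply IntegrableOn.of_bound (isCompact_closedBall (0 : E) R).measure_lt_top
      hf.meas.aestronglyMeasurable M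
    filter_upwards with x using hM x
  exact (integrableOn_iff_integrable_of_support_subset (measurableSet_aux hR)).1 h1

theorem memLp_two {f : E → ℂ} (hf : BB f) : MemLp f 2 := by
  rw [memLp_two_iff_integrable_sq_norm hf.meas.aestronglyMeasurable]
  obtain ⟨M, hM0, hM⟩ := hf.bdd
  refine Integrable.mono' (hf.integrable.norm.const_mul M) ?_ ?_
  · exact (hf.meas.norm.pow_const 2).aestronglyMeasurable
  · filter_upwards with x
    rw [Real.norm_eq_abs, abs_of_nonneg (by positivity), sq]
    gcongr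
    exact hM x

theorem mul_left {f c : E → ℂ} (hf : BB f) (hc : Measurable c) {M : ℝ} (hM : ∀ x, ‖c x‖ ≤ M) :
    BB (fun x => c x * f x) := by
  refine ⟨hc.mul hf.meas, ?_, ?_⟩
  · obtain ⟨M', h0, hM'⟩ := hf.bdd
    have : 0 ≤ M := le_trans (norm_nonneg _) (hM 0)
    refine ⟨M * M', by positivity, fun x => ?_⟩
    rw [norm_mul]
    gcongr
    · exact hM x
    · exact hM' x
  · obtain ⟨R, h0, hR⟩ := hf.supp
    exact ⟨R, h0, fun x hx => by simp [hR x hx]⟩

theorem comp_add {f : E → ℂ} (hf : BB f) (v : E) : BB (fun x => f (x + v)) := by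
  refine ⟨hf.meas.comp (measurable_add_const v), ?_, ?_⟩
  · obtain ⟨M', h0, hM'⟩ := hf.bdd
    exact ⟨M', h0, fun x => hM' _⟩
  · obtain ⟨R, h0, hR⟩ := hf.supp
    refine ⟨R + ‖v‖, by positivity, fun x hx => hR _ ?_⟩
    have : ‖x‖ ≤ ‖x + v‖ + ‖v‖ := by
      calc ‖x‖ = ‖(x + v) - v‖ := by simp
        _ ≤ _ := norm_sub_le _ _
    linarith

end BB

/-- The solution `x ↦ (exp(-itΔ) u₀)(x)` with `𝓕 u₀ = g`. -/
def S (t : ℝ) (g : E → ℂ) (x : E) : ℂ := 𝓕⁻ (fun ξ => ph t ξ * g ξ) x

theorem S_eq (t : ℝ) (g : E → ℂ) (x : E) :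
    S t g x = ∫ ξ, ee (inner ℝ ξ x) * (ph t ξ * g ξ) := by
  rw [S, fourierInv_eq_ee]

theorem BB.ph_mul {g : E → ℂ} (hg : BB g) (t : ℝ) : BB (fun ξ => ph t ξ * g ξ) :=
  hg.mul_left (continuous_ph_right t).measurable (M := 1) (fun ξ => (norm_ph t ξ).le)

/-- Joint continuity of the solution. -/
theorem continuous_S {g : E → ℂ} (hg : Integrable g) :
    Continuous (fun p : ℝ × E => S p.1 g p.2) := by
  simp_rw [S_eq]
  apply continuous_of_dominated (bound := fun ξ => ‖g ξ‖)
  · intro p
    apply AEStronglyMeasurable.mul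
    · apply Continuous.aestronglyMeasurable
      exact continuous_ee.comp (by fun_prop)
    · exact (continuous_ph_right p.1).aestronglyMeasurable.mul hg.aestronglyMeasurable
  · intro p
    filter_upwards with ξ
    rw [norm_mul, norm_mul, norm_ee, norm_ph, one_mul, one_mul]
  · exact hg.norm
  · filter_upwards with ξ
    apply Continuous.mul
    · exact continuous_ee.comp (by fun_prop)
    · exact ((continuous_ph_left ξ).comp continuous_fst).mul continuous_const

theorem continuous_S_right {g : E → ℂ} (hg : Integrable g) (t : ℝ) :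
    Continuous (fun x => S t g x) := by
  have h1 : Continuous (fun x : E => ((t, x) : ℝ × E)) := by fun_prop
  have h2 := (continuous_S hg).comp h1
  simpa only [Function.comp_def] using h2

theorem norm_S_le {g : E → ℂ} (t : ℝ) (x : E) : ‖S t g x‖ ≤ ∫ ξ, ‖g ξ‖ := by
  rw [S_eq]
  refine (norm_integral_le_integral_norm _).trans (le_of_eq ?_)
  congr 1
  ext ξ
  rw [norm_mul, norm_mul, norm_ee, norm_ph, one_mul, one_mul]

theorem lintegral_S_sq {g : E → ℂ} (hg : BB g) (t : ℝ) :
    ∫⁻ x, ‖S t g x‖ₑ ^ 2 = ∫⁻ ξ, ‖g ξ‖ₑ ^ 2 := by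
  have := lintegral_fourierInv_sq (hg.ph_mul t).integrable (hg.ph_mul t).memLp_two
  simp only [S]
  rw [this]
  congr 1
  ext ξ
  rw [enorm_mul, enorm_ph, one_mul]

/-- Two-variable Plancherel for the partial transform. -/
theorem double_plancherel {G : E → E → ℂ} (hG : Measurable (Function.uncurry G)) {M R : ℝ}
    (hM : ∀ β α, ‖G β α‖ ≤ M) (hR : 0 ≤ R) (h1 : ∀ β α, R < ‖β‖ → G β α = 0)
    (h2 : ∀ β α, R < ‖α‖ → G β α = 0) :
    ∫⁻ κ : E, ∫⁻ q : E, ‖∫ β, ∫ α, ee (inner ℝ β κ - inner ℝ q α) * G β α‖ₑ ^ 2 =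
      ∫⁻ β, ∫⁻ α, ‖G β α‖ₑ ^ 2 := by
  have hM0 : 0 ≤ M := le_trans (norm_nonneg _) (hM 0 0)
  have hGb : ∀ α, BB (fun β => G β α) := fun α =>
    ⟨hG.comp (measurable_id.prodMk measurable_const), ⟨M, hM0, fun β => hM β α⟩,
      ⟨R, hR, fun β hβ => h1 β α hβ⟩⟩
  have hGa : ∀ β, BB (fun α => G β α) := fun β =>
    ⟨hG.comp (measurable_const.prodMk measurable_id), ⟨M, hM0, fun α => hM β α⟩,
      ⟨R, hR, fun α hα => h2 β α hα⟩⟩
  -- integrability of `G` on the product
  have hGi : Integrable (Function.uncurry G) (volume.prod volume) := by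
    have hs : Function.support (Function.uncurry G) ⊆ closedBall (0 : E) R ×ˢ closedBall (0 : E) R := by
      rintro ⟨β, α⟩ hx
      rw [mem_prod, mem_closedBall_zero_iff, mem_closedBall_zero_iff]
      constructor
      · by_contra hcon
        exact hx (h1 β α (not_le.1 hcon))
      · by_contra hcon
        exact hx (h2 β α (not_le.1 hcon))
    have h1 : IntegrableOn (Function.uncurry G) (closedBall (0 : E) R ×ˢ closedBall (0 : E) R)
        (volume.prod volume) := by
      apply IntegrableOn.of_bound _ hG.aestronglyMeasurable M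
      · filter_upwards with x using hM _ _
      · exact ((isCompact_closedBall (0 : E) R).prod
          (isCompact_closedBall (0 : E) R)).measure_lt_top
    exact (integrableOn_iff_integrable_of_support_subset hs).1 h1
  set J : E → E → ℂ := fun κ α => ∫ β, ee (inner ℝ β κ) * G β α with hJ
  have hJmeas : Measurable (Function.uncurry J) := by
    apply StronglyMeasurable.measurable
    apply StronglyMeasurable.integral_prod_right (f := fun (p : E × E) (β : E) =>
      ee (inner ℝ β p.1) * G β p.2)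
    apply Measurable.stronglyMeasurable
    apply Measurable.mul
    · exact (continuous_ee.comp (by fun_prop)).measurable
    · have : Measurable (fun p : (E × E) × E => ((p.2, p.1.2) : E × E)) := by fun_prop
      exact hG.comp this
  have hJbb : ∀ κ, BB (J κ) := by
    intro κ
    refine ⟨hJmeas.comp (measurable_const.prodMk measurable_id), ?_, ⟨R, hR, ?_⟩⟩
    · refine ⟨∫ β in closedBall (0 : E) R, M, ?_, ?_⟩
      · exact setIntegral_nonneg measurableSet_closedBall (fun _ _ => hM0)
      · intro α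
        have e : J κ α = ∫ β in closedBall (0 : E) R, ee (inner ℝ β κ) * G β α := by
          rw [hJ]
          symm
          apply setIntegral_eq_integral_of_forall_compl_eq_zero
          intro β hβ
          rw [mem_closedBall_zero_iff, not_le] at hβ
          rw [h1 β α hβ, mul_zero]
        rw [e]
        refine (norm_integral_le_integral_norm _).trans ?_
        apply integral_mono_of_nonneg
        · filter_upwards with β using norm_nonneg _
        · exact integrableOn_const (isCompact_closedBall (0 : E) R).measure_lt_top.ne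
        · filter_upwards with β
          rw [norm_mul, norm_ee, one_mul]
          exact hM β α
    · intro α hα
      simp only [hJ]
      simp [h2 _ _ hα]
  have hin : ∀ κ q : E, ∫ β, ∫ α, ee (inner ℝ β κ - inner ℝ q α) * G β α = 𝓕 (J κ) q := by
    intro κ q
    rw [integral_integral_swap]
    · rw [fourier_eq_ee]
      apply integral_congr_ae
      filter_upwards with α
      rw [hJ]
      simp only
      rw [← integral_const_mul]
      congr 1
      ext β
      rw [sub_eq_add_neg, ee_add, real_inner_comm q α]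
      ring
    · apply Integrable.mono hGi
      · apply Measurable.aestronglyMeasurable
        apply Measurable.mul
        · exact (continuous_ee.comp (by fun_prop)).measurable
        · exact hG
      · filter_upwards with p
        simp only [Function.uncurry]
        rw [norm_mul, norm_ee, one_mul]
  simp_rw [hin]
  have e1 : ∀ κ, ∫⁻ q, ‖𝓕 (J κ) q‖ₑ ^ 2 = ∫⁻ α, ‖J κ α‖ₑ ^ 2 := fun κ =>
    lintegral_fourier_sq (hJbb κ).integrable (hJbb κ).memLp_two
  simp_rw [e1]
  rw [lintegral_lintegral_swap (hJmeas.enorm.pow_const 2).aemeasurable]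
  rw [lintegral_lintegral_swap (f := fun β α => ‖G β α‖ₑ ^ 2)
    (hG.enorm.pow_const 2).aemeasurable]
  congr 1
  ext α
  have e2 : ∀ κ, J κ α = 𝓕⁻ (fun β => G β α) κ := by
    intro κ
    rw [fourierInv_eq_ee]
  simp_rw [e2]
  exact lintegral_fourierInv_sq (hGb α).integrable (hGb α).memLp_two

attribute [irreducible] S ee

end

end Pool.Agent.H52
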