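import Mathlib
import Pool.Agent.H52.Phase

/-!
The localised data `T k F g κ q` and the formula for the corresponding solution.
-/

open MeasureTheory Complex Set FourierTransform Metric
open scoped Topology ENNReal

namespace Pool.Agent.H52

noncomputable section

set_option linter.unusedSectionVars false

variable {E : Type*} [NormedAddCommGroup E] [InnerProductSpace ℝ E] [FiniteDimensional ℝ E]
  [MeasurableSpace E] [BorelSpace E]

/-- The convolution part of the localisation. -/
def wf (F g : E → ℂ) (κ q ξ : E) : ℂ := ∫ α, F α * (ee (inner ℝ q (ξ - α)) * g (ξ - α + κ))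

/-- The localised Fourier data. -/
def T (k F g : E → ℂ) (κ q ξ : E) : ℂ := 𝓕 k ξ * wf F g κ q ξ

theorem wf_eq (F g : E → ℂ) (κ q ξ : E) :
    wf F g κ q ξ = ∫ α, F α * (ee (inner ℝ q (ξ - α)) * g (ξ - α + κ)) := rfl

theorem T_eq (k F g : E → ℂ) (κ q ξ : E) : T k F g κ q ξ = 𝓕 k ξ * wf F g κ q ξ := rfl

theorem measurable_wf {F g : E → ℂ} (hF : BB F) (hg : BB g) :
    Measurable (fun p : E × E × E => wf F g p.1 p.2.1 p.2.2) := by
  apply StronglyMeasurable.measurable
  apply StronglyMeasurable.integral_prod_right (f := fun (p : E × E × E) (α : E) =>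
    F α * (ee (inner ℝ p.2.1 (p.2.2 - α)) * g (p.2.2 - α + p.1)))
  apply Measurable.stronglyMeasurable
  apply Measurable.mul
  · exact hF.meas.comp measurable_snd
  · apply Measurable.mul
    · exact (continuous_ee.comp (by fun_prop)).measurable
    · have : Measurable (fun p : (E × E × E) × E => p.1.2.2 - p.2 + p.1.1) := by fun_prop
      exact hg.meas.comp this

attribute [irreducible] wf

theorem bb_wf {F g : E → ℂ} (hF : BB F) (hg : BB g) (κ q : E) : BB (wf F g κ q) := by
  refine ⟨?_, ?_, ?_⟩
  · have h1 : Measurable (fun ξ : E => ((κ, q, ξ) : E × E × E)) := by fun_prop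
    exact (measurable_wf hF hg).comp h1
  · obtain ⟨M, hM0, hM⟩ := hg.bdd
    refine ⟨∫ α, ‖F α‖ * M, integral_nonneg (fun α => by positivity), fun ξ => ?_⟩
    rw [wf_eq]
    refine (norm_integral_le_integral_norm _).trans ?_
    apply integral_mono_of_nonneg
    · filter_upwards with β using norm_nonneg _
    · exact hF.integrable.norm.mul_const M
    · filter_upwards with α
      rw [norm_mul, norm_mul, norm_ee, one_mul]
      gcongr
      exact hM _
  · obtain ⟨R, hR0, hR⟩ := hg.supp
    obtain ⟨R', hR0', hR'⟩ := hF.supp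
    refine ⟨R + R' + ‖κ‖, by positivity, fun ξ hξ => ?_⟩
    rw [wf_eq]
    apply integral_eq_zero_of_ae
    filter_upwards with α
    by_cases h : R' < ‖α‖
    · simp [hR' α h]
    · rw [not_lt] at h
      have : g (ξ - α + κ) = 0 := by
        apply hR
        have h1 : ‖ξ‖ ≤ ‖ξ - α + κ‖ + ‖α‖ + ‖κ‖ := by
          calc ‖ξ‖ = ‖(ξ - α + κ) + α - κ‖ := by congr 1; abel
            _ ≤ ‖(ξ - α + κ) + α‖ + ‖κ‖ := norm_sub_le _ _
            _ ≤ _ := by gcongr; exact norm_add_le _ _
        linarith
      simp [this]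

theorem continuous_fourier_bb {k : E → ℂ} (hk : BB k) : Continuous (𝓕 k) :=
  continuous_fourier_of_integrable hk.integrable

theorem norm_fourier_le {k : E → ℂ} (ξ : E) : ‖𝓕 k ξ‖ ≤ ∫ x, ‖k x‖ := by
  rw [fourier_eq_ee]
  refine (norm_integral_le_integral_norm _).trans (le_of_eq ?_)
  congr 1
  ext ξ
  rw [norm_mul, norm_ee, one_mul]

theorem measurable_T {k F g : E → ℂ} (hk : BB k) (hF : BB F) (hg : BB g) :
    Measurable (fun p : E × E × E => T k F g p.1 p.2.1 p.2.2) := by
  apply Measurable.mul
  · exact (continuous_fourier_bb hk).measurable.comp (by fun_prop)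
  · exact measurable_wf hF hg

theorem bb_T {k F g : E → ℂ} (hk : BB k) (hF : BB F) (hg : BB g) (κ q : E) :
    BB (T k F g κ q) :=
  (bb_wf hF hg κ q).mul_left (continuous_fourier_bb hk).measurable (fun ξ => norm_fourier_le ξ)

theorem integrable_conv {F g : E → ℂ} (hF : BB F) (hg : BB g) (κ : E) :
    Integrable (fun p : E × E => F p.2 * g (p.1 - p.2 + κ)) (volume.prod volume) := by
  have := Integrable.convolution_integrand (ContinuousLinearMap.mul ℝ ℂ) (μ := (volume : Measure E))
    (ν := (volume : Measure E)) hF.integrable (hg.comp_add κ).integrable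
  simpa using this

theorem S_wf {F g : E → ℂ} (hF : BB F) (hg : BB g) (κ q : E) (t : ℝ) (y : E) :
    S t (wf F g κ q) y = ∫ α, F α * (ee (inner ℝ y (α - κ) + 2 * Real.pi * t * ‖α - κ‖ ^ 2 -
      inner ℝ q κ) * S t g (y + q + (4 * Real.pi * t) • (α - κ))) := by
  rw [S_eq]
  have e1 : ∫ ξ, ee (inner ℝ ξ y) * (ph t ξ * wf F g κ q ξ) =
      ∫ ξ, ∫ α, ee (inner ℝ ξ y) * (ph t ξ * (F α * (ee (inner ℝ q (ξ - α)) * g (ξ - α + κ)))) := by
    congr 1
    ext ξ
    rw [wf_eq, ← integral_const_mul, ← integral_const_mul]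
  rw [e1, integral_integral_swap]
  · congr 1
    ext α
    rw [← integral_add_right_eq_self (μ := (volume : Measure E)) _ (α - κ), S_eq,
      ← integral_const_mul, ← integral_const_mul]
    congr 1
    ext η
    have h1 : η + (α - κ) - α + κ = η := by abel
    have h2 : η + (α - κ) - α = η - κ := by abel
    rw [h1, h2]
    have h3 : ee (inner ℝ (η + (α - κ)) y) * (ph t (η + (α - κ)) * (ee (inner ℝ q (η - κ)))) =
        ee (inner ℝ y (α - κ) + 2 * Real.pi * t * ‖α - κ‖ ^ 2 - inner ℝ q κ) *
        (ee (inner ℝ η (y + q + (4 * Real.pi * t) • (α - κ))) * ph t η) := by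
      rw [ph_eq_ee, ph_eq_ee, ← ee_add, ← ee_add, ← ee_add, ← ee_add]
      congr 1
      generalize α - κ = c
      rw [norm_add_sq_real, inner_add_left, inner_sub_right, inner_add_right, inner_add_right,
        real_inner_smul_right, real_inner_comm y c, real_inner_comm q η]
      ring
    linear_combination (F α * g η) * h3
  · apply Integrable.mono (integrable_conv hF hg κ)
    · apply Measurable.aestronglyMeasurable
      apply Measurable.mul
      · exact (continuous_ee.comp (by fun_prop)).measurable
      · apply Measurable.mul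
        · exact (continuous_ph_right t).measurable.comp (by fun_prop)
        · apply Measurable.mul
          · exact hF.meas.comp measurable_snd
          · apply Measurable.mul
            · exact (continuous_ee.comp (by fun_prop)).measurable
            · have : Measurable (fun p : E × E => p.1 - p.2 + κ) := by fun_prop
              exact hg.meas.comp this
    · filter_upwards with p
      simp only [Function.uncurry]
      rw [norm_mul, norm_mul, norm_mul, norm_mul, norm_mul, norm_ee, norm_ee, norm_ph]
      simp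

theorem S_T {k F g : E → ℂ} (hk : BB k) (hF : BB F) (hg : BB g) (κ q : E) (t : ℝ) (x : E) :
    S t (T k F g κ q) x = ∫ β, k β * S t (wf F g κ q) (x - β) := by
  rw [S_eq]
  have e1 : ∫ ξ, ee (inner ℝ ξ x) * (ph t ξ * T k F g κ q ξ) =
      ∫ ξ, ∫ β, ee (inner ℝ ξ x) * (ph t ξ * ((ee (-inner ℝ β ξ) * k β) * wf F g κ q ξ)) := by
    congr 1
    ext ξ
    rw [T, fourier_eq_ee, ← integral_mul_const, ← integral_const_mul, ← integral_const_mul]
  rw [e1, integral_integral_swap]
  · congr 1
    ext β
    rw [S_eq, ← integral_const_mul]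
    congr 1
    ext ξ
    have h3 : ee (inner ℝ ξ x) * ee (-inner ℝ β ξ) = ee (inner ℝ ξ (x - β)) := by
      rw [← ee_add, inner_sub_right, real_inner_comm β ξ]
      congr 1
    rw [← h3]
    ring
  · have h0 := (bb_wf hF hg κ q).integrable.mul_prod hk.integrable
    apply Integrable.mono h0
    · apply Measurable.aestronglyMeasurable
      apply Measurable.mul
      · exact (continuous_ee.comp (by fun_prop)).measurable
      · apply Measurable.mul
        · exact (continuous_ph_right t).measurable.comp (by fun_prop)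
        · apply Measurable.mul
          · apply Measurable.mul
            · exact (continuous_ee.comp (by fun_prop)).measurable
            · exact hk.meas.comp measurable_snd
          · exact (bb_wf hF hg κ q).meas.comp measurable_fst
    · filter_upwards with p
      simp only [Function.uncurry]
      rw [norm_mul, norm_mul, norm_mul, norm_mul, norm_ee, norm_ee, norm_ph, norm_mul]
      simp only [one_mul]
      rw [mul_comm]

/-- The kernel in the representation of the localised solution. -/
def Gk (k F g : E → ℂ) (t : ℝ) (X β α : E) : ℂ :=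
  k β * (F α * (ee (inner ℝ (X - β) α + 2 * Real.pi * t * ‖α‖ ^ 2) *
    S t g (X - β + (4 * Real.pi * t) • α)))

theorem S_T_shift {k F g : E → ℂ} (hk : BB k) (hF : BB F) (hg : BB g) (κ q : E) (t : ℝ) (X : E) :
    S t (T k F g κ q) (X - q + (4 * Real.pi * t) • κ) =
      ee (-inner ℝ X κ - 2 * Real.pi * t * ‖κ‖ ^ 2) *
        ∫ β, ∫ α, ee (inner ℝ β κ - inner ℝ q α) * Gk k F g t X β α := by
  rw [S_T hk hF hg, ← integral_const_mul]
  congr 1
  ext β
  rw [S_wf hF hg, ← integral_const_mul, ← integral_const_mul]
  congr 1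
  ext α
  have h1 : X - q + (4 * Real.pi * t) • κ - β + q + (4 * Real.pi * t) • (α - κ) =
      X - β + (4 * Real.pi * t) • α := by
    rw [smul_sub]; abel
  rw [h1, Gk]
  have h3 : ee (inner ℝ (X - q + (4 * Real.pi * t) • κ - β) (α - κ) +
      2 * Real.pi * t * ‖α - κ‖ ^ 2 - inner ℝ q κ) =
      ee (-inner ℝ X κ - 2 * Real.pi * t * ‖κ‖ ^ 2) * (ee (inner ℝ β κ - inner ℝ q α) *
        ee (inner ℝ (X - β) α + 2 * Real.pi * t * ‖α‖ ^ 2)) := by
    rw [← ee_add, ← ee_add]
    congr 1
    rw [norm_sub_sq_real]
    simp only [inner_sub_left, inner_sub_right, inner_add_left, real_inner_smul_left]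
    rw [real_inner_self_eq_norm_sq, real_inner_comm κ α]
    ring
  rw [h3]
  ring

end

end Pool.Agent.H52
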