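import Mathlib
import Pool.Agent.H52.Trans

/-!
Averaging over phase space.
-/

open MeasureTheory Complex Set FourierTransform Metric
open scoped Topology ENNReal

namespace Pool.Agent.H52

noncomputable section

set_option linter.unusedSectionVars false

variable {E : Type*} [NormedAddCommGroup E] [InnerProductSpace ℝ E] [FiniteDimensional ℝ E]
  [MeasurableSpace E] [BorelSpace E]

attribute [local irreducible] T

theorem measurable_S {g : E → ℂ} (hg : BB g) : Measurable (fun p : ℝ × E => S p.1 g p.2) :=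
  (continuous_S hg.integrable).measurable

theorem measurable_Gk {k F g : E → ℂ} (hk : BB k) (hF : BB F) (hg : BB g) :
    Measurable (fun p : (ℝ × E) × (E × E) => Gk k F g p.1.1 p.1.2 p.2.1 p.2.2) := by
  unfold Gk
  apply Measurable.mul
  · exact hk.meas.comp (by fun_prop)
  · apply Measurable.mul
    · exact hF.meas.comp (by fun_prop)
    · apply Measurable.mul
      · exact (continuous_ee.comp (by fun_prop)).measurable
      · have h1 : Measurable (fun p : (ℝ × E) × (E × E) =>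
            ((p.1.1, p.1.2 - p.2.1 + (4 * Real.pi * p.1.1) • p.2.2) : ℝ × E)) := by fun_prop
        exact (measurable_S hg).comp h1

/-- The double integral in the representation. -/
def Ik (k F g : E → ℂ) (t : ℝ) (X κ q : E) : ℂ :=
  ∫ β, ∫ α, ee (inner ℝ β κ - inner ℝ q α) * Gk k F g t X β α

theorem measurable_Ik {k F g : E → ℂ} (hk : BB k) (hF : BB F) (hg : BB g) :
    Measurable (fun p : (ℝ × E) × (E × E) => Ik k F g p.1.1 p.1.2 p.2.1 p.2.2) := by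
  unfold Ik
  apply StronglyMeasurable.measurable
  apply StronglyMeasurable.integral_prod_right (f := fun (p : (ℝ × E) × (E × E)) (β : E) =>
    ∫ α, ee (inner ℝ β p.2.1 - inner ℝ p.2.2 α) * Gk k F g p.1.1 p.1.2 β α)
  apply StronglyMeasurable.integral_prod_right (f := fun (p : ((ℝ × E) × (E × E)) × E) (α : E) =>
    ee (inner ℝ p.2 p.1.2.1 - inner ℝ p.1.2.2 α) * Gk k F g p.1.1.1 p.1.1.2 p.2 α)
  apply Measurable.stronglyMeasurable
  apply Measurable.mul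
  · exact (continuous_ee.comp (by fun_prop)).measurable
  · have h1 : Measurable (fun p : (((ℝ × E) × (E × E)) × E) × E =>
        ((p.1.1.1, (p.1.2, p.2)) : (ℝ × E) × (E × E))) := by fun_prop
    exact (measurable_Gk hk hF hg).comp h1

theorem plancherel_Ik {k F g : E → ℂ} (hk : BB k) (hF : BB F) (hg : BB g) (t : ℝ) (X : E) :
    ∫⁻ κ : E, ∫⁻ q : E, ‖Ik k F g t X κ q‖ₑ ^ 2 = ∫⁻ β, ∫⁻ α, ‖Gk k F g t X β α‖ₑ ^ 2 := by
  obtain ⟨Rk, hRk0, hRk⟩ := hk.supp
  obtain ⟨RF, hRF0, hRF⟩ := hF.supp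
  obtain ⟨Mk, hMk0, hMk⟩ := hk.bdd
  obtain ⟨MF, hMF0, hMF⟩ := hF.bdd
  have hm : Measurable (Function.uncurry (Gk k F g t X)) := by
    have h1 : Measurable (fun p : E × E => (((t, X), p) : (ℝ × E) × (E × E))) := by fun_prop
    exact (measurable_Gk hk hF hg).comp h1
  refine double_plancherel (G := Gk k F g t X) hm (M := Mk * (MF * (1 * ∫ ξ, ‖g ξ‖)))
    (R := max Rk RF) ?_ (le_max_of_le_left hRk0) ?_ ?_
  · intro β α
    rw [Gk, norm_mul, norm_mul, norm_mul, norm_ee]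
    gcongr
    · exact hMk β
    · exact hMF α
    · exact norm_S_le _ _
  · intro β α h
    rw [Gk, hRk β (lt_of_le_of_lt (le_max_left _ _) h), zero_mul]
  · intro β α h
    rw [Gk, hRF α (lt_of_le_of_lt (le_max_right _ _) h), zero_mul, mul_zero]

theorem enorm_S_T_shift {k F g : E → ℂ} (hk : BB k) (hF : BB F) (hg : BB g) (κ q : E) (t : ℝ)
    (X : E) : ‖S t (T k F g κ q) (X - q + (4 * Real.pi * t) • κ)‖ₑ = ‖Ik k F g t X κ q‖ₑ := by
  rw [S_T_shift hk hF hg, enorm_mul, enorm_ee, one_mul, Ik]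

/-- The localised energy is controlled, on average, by the energy of the original solution. -/
theorem loc_le {k F g : E → ℂ} (hk : BB k) (hF : BB F) (hg : BB g) (τ : Measure ℝ) [SFinite τ]
    {b a2 : E → ℝ≥0∞} (hb : Measurable b) (ha2 : Measurable a2)
    (hshift : ∀ᵐ t ∂τ, ∀ β α X, k β ≠ 0 → F α ≠ 0 → b X ≤ a2 (X - β + (4 * Real.pi * t) • α)) :
    ∫⁻ κ : E, ∫⁻ q : E, ∫⁻ t, (∫⁻ x, b (x + q - (4 * Real.pi * t) • κ) *
      ‖S t (T k F g κ q) x‖ₑ ^ 2) ∂τ ≤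
    (∫⁻ β, ‖k β‖ₑ ^ 2) * (∫⁻ α, ‖F α‖ₑ ^ 2) * ∫⁻ t, (∫⁻ x, a2 x * ‖S t g x‖ₑ ^ 2) ∂τ := by
  -- translate
  have e1 : ∀ κ q t, ∫⁻ x, b (x + q - (4 * Real.pi * t) • κ) * ‖S t (T k F g κ q) x‖ₑ ^ 2 =
      ∫⁻ X, b X * ‖Ik k F g t X κ q‖ₑ ^ 2 := by
    intro κ q t
    rw [← lintegral_add_right_eq_self _ (-q + (4 * Real.pi * t) • κ)]
    congr 1
    ext X
    rw [← enorm_S_T_shift hk hF hg]
    have h1 : X + (-q + (4 * Real.pi * t) • κ) + q - (4 * Real.pi * t) • κ = X := by abel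
    have h2 : X + (-q + (4 * Real.pi * t) • κ) = X - q + (4 * Real.pi * t) • κ := by abel
    rw [h1, h2]
  simp_rw [e1]
  have hIm := measurable_Ik hk hF hg
  -- swap
  have e2 : ∫⁻ κ : E, ∫⁻ q : E, ∫⁻ t, (∫⁻ X, b X * ‖Ik k F g t X κ q‖ₑ ^ 2) ∂τ =
      ∫⁻ p : ℝ × E, (∫⁻ r : E × E, b p.2 * ‖Ik k F g p.1 p.2 r.1 r.2‖ₑ ^ 2) ∂(τ.prod volume) := by
    have hm1 : Measurable (fun z : (ℝ × E) × (E × E) =>
        b z.1.2 * ‖Ik k F g z.1.1 z.1.2 z.2.1 z.2.2‖ₑ ^ 2) := by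
      apply Measurable.mul
      · exact hb.comp (by fun_prop)
      · exact (hIm.enorm).pow_const 2
    have h1 : ∀ κ q : E, ∫⁻ t, (∫⁻ X, b X * ‖Ik k F g t X κ q‖ₑ ^ 2) ∂τ =
        ∫⁻ p : ℝ × E, b p.2 * ‖Ik k F g p.1 p.2 κ q‖ₑ ^ 2 ∂(τ.prod volume) := by
      intro κ q
      rw [lintegral_prod]
      apply Measurable.aemeasurable
      have h2 : Measurable (fun p : ℝ × E => ((p, (κ, q)) : (ℝ × E) × (E × E))) := by fun_prop
      exact hm1.comp h2
    simp_rw [h1]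
    have h3 : ∫⁻ κ : E, ∫⁻ q : E, (∫⁻ p : ℝ × E, b p.2 * ‖Ik k F g p.1 p.2 κ q‖ₑ ^ 2
        ∂(τ.prod volume)) = ∫⁻ r : E × E, (∫⁻ p : ℝ × E, b p.2 * ‖Ik k F g p.1 p.2 r.1 r.2‖ₑ ^ 2
        ∂(τ.prod volume)) ∂(volume.prod volume) := by
      rw [lintegral_prod]
      apply Measurable.aemeasurable
      apply Measurable.lintegral_prod_right (f := fun (r : E × E) (p : ℝ × E) =>
        b p.2 * ‖Ik k F g p.1 p.2 r.1 r.2‖ₑ ^ 2)
      exact hm1.comp measurable_swap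
    rw [h3, lintegral_lintegral_swap]
    · rfl
    · exact (hm1.comp measurable_swap).aemeasurable
  rw [e2]
  -- Plancherel
  have e3 : ∀ p : ℝ × E, ∫⁻ r : E × E, b p.2 * ‖Ik k F g p.1 p.2 r.1 r.2‖ₑ ^ 2 =
      b p.2 * ∫⁻ β, ∫⁻ α, ‖Gk k F g p.1 p.2 β α‖ₑ ^ 2 := by
    intro p
    have hm : Measurable (fun r : E × E => ‖Ik k F g p.1 p.2 r.1 r.2‖ₑ ^ 2) := by
      have h2 : Measurable (fun r : E × E => (((p.1, p.2), r) : (ℝ × E) × (E × E))) := by fun_prop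
      exact ((hIm.comp h2).enorm).pow_const 2
    rw [lintegral_const_mul _ hm]
    congr 1
    have : (volume : Measure (E × E)) = (volume : Measure E).prod volume := rfl
    rw [this, lintegral_prod _ hm.aemeasurable]
    exact plancherel_Ik hk hF hg p.1 p.2
  simp_rw [e3]
  have hGm := measurable_Gk hk hF hg
  have hGm2 : Measurable (fun z : (ℝ × E) × (E × E) =>
      b z.1.2 * ‖Gk k F g z.1.1 z.1.2 z.2.1 z.2.2‖ₑ ^ 2) := by
    apply Measurable.mul
    · exact hb.comp (by fun_prop)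
    · exact (hGm.enorm).pow_const 2
  have e4 : ∫⁻ p : ℝ × E, (b p.2 * ∫⁻ β, ∫⁻ α, ‖Gk k F g p.1 p.2 β α‖ₑ ^ 2) ∂(τ.prod volume) =
      ∫⁻ t, (∫⁻ r : E × E, ∫⁻ X, b X * ‖Gk k F g t X r.1 r.2‖ₑ ^ 2) ∂τ := by
    have h1 : ∀ p : ℝ × E, b p.2 * ∫⁻ β, ∫⁻ α, ‖Gk k F g p.1 p.2 β α‖ₑ ^ 2 =
        ∫⁻ r : E × E, b p.2 * ‖Gk k F g p.1 p.2 r.1 r.2‖ₑ ^ 2 := by
      intro p
      have hm : Measurable (fun r : E × E => ‖Gk k F g p.1 p.2 r.1 r.2‖ₑ ^ 2) := by
        have h2 : Measurable (fun r : E × E => (((p.1, p.2), r) : (ℝ × E) × (E × E))) := by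
          fun_prop
        exact ((hGm.comp h2).enorm).pow_const 2
      rw [lintegral_const_mul _ hm]
      congr 1
      have : (volume : Measure (E × E)) = (volume : Measure E).prod volume := rfl
      rw [this, lintegral_prod _ hm.aemeasurable]
    simp_rw [h1]
    rw [lintegral_prod]
    · apply lintegral_congr
      intro t
      rw [lintegral_lintegral_swap]
      have h2 : Measurable (fun z : E × (E × E) => (((t, z.1), z.2) : (ℝ × E) × (E × E))) := by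
        fun_prop
      exact (hGm2.comp h2).aemeasurable
    · apply Measurable.aemeasurable
      exact Measurable.lintegral_prod_right (f := fun (p : ℝ × E) (r : E × E) =>
        b p.2 * ‖Gk k F g p.1 p.2 r.1 r.2‖ₑ ^ 2) hGm2
  rw [e4]
  -- the estimate for fixed time
  have e5 : ∀ᵐ t ∂τ, ∫⁻ r : E × E, ∫⁻ X, b X * ‖Gk k F g t X r.1 r.2‖ₑ ^ 2 ≤
      (∫⁻ β, ‖k β‖ₑ ^ 2) * (∫⁻ α, ‖F α‖ₑ ^ 2) * ∫⁻ x, a2 x * ‖S t g x‖ₑ ^ 2 := by
    filter_upwards [hshift] with t ht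
    have h1 : ∀ r : E × E, ∫⁻ X, b X * ‖Gk k F g t X r.1 r.2‖ₑ ^ 2 ≤
        (‖k r.1‖ₑ ^ 2 * ‖F r.2‖ₑ ^ 2) * ∫⁻ x, a2 x * ‖S t g x‖ₑ ^ 2 := by
      intro r
      have h2 : ∀ X, b X * ‖Gk k F g t X r.1 r.2‖ₑ ^ 2 ≤ (‖k r.1‖ₑ ^ 2 * ‖F r.2‖ₑ ^ 2) *
          (a2 (X + (-r.1 + (4 * Real.pi * t) • r.2)) *
            ‖S t g (X + (-r.1 + (4 * Real.pi * t) • r.2))‖ₑ ^ 2) := by
        intro X
        have h3 : X + (-r.1 + (4 * Real.pi * t) • r.2) = X - r.1 + (4 * Real.pi * t) • r.2 := by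
          abel
        rw [h3, Gk, enorm_mul, enorm_mul, enorm_mul, enorm_ee, one_mul]
        by_cases hk0 : k r.1 = 0
        · simp [hk0]
        by_cases hF0 : F r.2 = 0
        · simp [hF0]
        calc b X * (‖k r.1‖ₑ * (‖F r.2‖ₑ * ‖S t g (X - r.1 + (4 * Real.pi * t) • r.2)‖ₑ)) ^ 2 ≤
            a2 (X - r.1 + (4 * Real.pi * t) • r.2) *
            (‖k r.1‖ₑ * (‖F r.2‖ₑ * ‖S t g (X - r.1 + (4 * Real.pi * t) • r.2)‖ₑ)) ^ 2 := by
              gcongr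
              exact ht _ _ _ hk0 hF0
          _ = _ := by rw [mul_pow, mul_pow]; ring
      refine (lintegral_mono h2).trans ?_
      rw [lintegral_const_mul']
      · rw [lintegral_add_right_eq_self (fun x => a2 x * ‖S t g x‖ₑ ^ 2)]
      · exact ENNReal.mul_ne_top (by simp) (by simp)
    refine (lintegral_mono h1).trans ?_
    have hkm : Measurable (fun β => ‖k β‖ₑ ^ 2) := (hk.meas.enorm).pow_const 2
    have hFm : Measurable (fun α => ‖F α‖ₑ ^ 2) := (hF.meas.enorm).pow_const 2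
    rw [lintegral_mul_const]
    · have : (volume : Measure (E × E)) = (volume : Measure E).prod volume := rfl
      rw [this, lintegral_prod_mul hkm.aemeasurable hFm.aemeasurable]
    · exact (hkm.comp measurable_fst).mul (hFm.comp measurable_snd)
  refine (lintegral_mono_ae e5).trans ?_
  rw [lintegral_const_mul]
  apply Measurable.lintegral_prod_right (f := fun (t : ℝ) (x : E) => a2 x * ‖S t g x‖ₑ ^ 2)
  exact (ha2.comp measurable_snd).mul (((measurable_S hg).enorm).pow_const 2)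

end

end Pool.Agent.H52
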