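import Mathlib
import Pool.Agent.H52.Avg

/-!
Lower bound for the phase space average: the pairing with a fixed profile.
-/

open MeasureTheory Complex Set FourierTransform Metric
open scoped Topology ENNReal ComplexConjugate

namespace Pool.Agent.H52

noncomputable section

set_option linter.unusedSectionVars false

variable {E : Type*} [NormedAddCommGroup E] [InnerProductSpace ℝ E] [FiniteDimensional ℝ E]
  [MeasurableSpace E] [BorelSpace E]

attribute [local irreducible] T

/-- The weight `Γ ζ = ∫ F α |𝓕 k (ζ + α)|²`. -/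
def Gam (k F : E → ℂ) (ζ : E) : ℂ := ∫ α, F α * (conj (𝓕 k (ζ + α)) * 𝓕 k (ζ + α))

theorem norm_ck_le {k : E → ℂ} (x : E) :
    ‖conj (𝓕 k x) * 𝓕 k x‖ ≤ (∫ x, ‖k x‖) * ∫ x, ‖k x‖ := by
  rw [norm_mul, RCLike.norm_conj]
  gcongr
  · exact norm_fourier_le x
  · exact norm_fourier_le x

theorem continuous_Gam {k F : E → ℂ} (hk : BB k) (hF : BB F) : Continuous (Gam k F) := by
  unfold Gam
  have hc := continuous_fourier_bb hk
  have hcc : Continuous (fun x => conj (𝓕 k x)) := Complex.continuous_conj.comp hc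
  apply continuous_of_dominated (bound := fun α => ‖F α‖ * ((∫ x, ‖k x‖) * ∫ x, ‖k x‖))
  · intro ζ
    apply hF.integrable.aestronglyMeasurable.mul
    apply Continuous.aestronglyMeasurable
    exact (hcc.comp (by fun_prop)).mul (hc.comp (by fun_prop))
  · intro ζ
    filter_upwards with α
    rw [norm_mul]
    gcongr
    exact norm_ck_le _
  · exact hF.integrable.norm.mul_const _
  · filter_upwards with α
    apply continuous_const.mul
    exact (hcc.comp (by fun_prop)).mul (hc.comp (by fun_prop))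

theorem norm_Gam_le {k F : E → ℂ} (hF : BB F) (ζ : E) :
    ‖Gam k F ζ‖ ≤ ∫ α, ‖F α‖ * ((∫ x, ‖k x‖) * ∫ x, ‖k x‖) := by
  unfold Gam
  refine (norm_integral_le_integral_norm _).trans ?_
  apply integral_mono_of_nonneg
  · filter_upwards with β using norm_nonneg _
  · exact hF.integrable.norm.mul_const _
  · filter_upwards with α
    rw [norm_mul]
    gcongr
    exact norm_ck_le _

/-- The pairing with the profile `𝓕 k`. -/
def pr (k F g : E → ℂ) (κ q : E) : ℂ := ∫ ξ, conj (𝓕 k ξ) * T k F g κ q ξ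

theorem pr_eq {k F g : E → ℂ} (hk : BB k) (hF : BB F) (hg : BB g) (κ q : E) :
    pr k F g κ q = 𝓕⁻ (fun ζ => Gam k F ζ * g (ζ + κ)) q := by
  have hc := continuous_fourier_bb hk
  have hcc : Continuous (fun x => conj (𝓕 k x)) := Complex.continuous_conj.comp hc
  rw [fourierInv_eq_ee, pr]
  have e1 : ∫ ξ, conj (𝓕 k ξ) * T k F g κ q ξ =
      ∫ ξ, ∫ α, (conj (𝓕 k ξ) * 𝓕 k ξ) * (F α * (ee (inner ℝ q (ξ - α)) * g (ξ - α + κ))) := by
    congr 1
    ext ξ
    rw [T_eq, wf_eq, ← integral_const_mul, ← integral_const_mul]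
    congr 1
    ext α
    ring
  have e2 : ∫ ζ, ee (inner ℝ ζ q) * (Gam k F ζ * g (ζ + κ)) =
      ∫ ζ, ∫ α, ee (inner ℝ ζ q) * (F α * (conj (𝓕 k (ζ + α)) * 𝓕 k (ζ + α)) * g (ζ + κ)) := by
    congr 1
    ext ζ
    rw [Gam, ← integral_mul_const, ← integral_const_mul]
  rw [integral_integral_swap] at e2
  rw [e1, e2, integral_integral_swap]
  · congr 1
    ext α
    rw [← integral_add_right_eq_self (μ := (volume : Measure E)) _ α]
    congr 1
    ext ζ
    have h1 : ζ + α - α = ζ := by abel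
    rw [h1, real_inner_comm q ζ]
    ring
  rotate_left
  · apply Integrable.mono (((hg.comp_add κ).integrable.mul_prod hF.integrable).mul_const
      (((∫ x, ‖k x‖) * ∫ x, ‖k x‖ : ℝ) : ℂ))
    · apply Measurable.aestronglyMeasurable
      apply Measurable.mul
      · exact (continuous_ee.comp (by fun_prop)).measurable
      · apply Measurable.mul
        · apply Measurable.mul
          · exact hF.meas.comp measurable_snd
          · exact ((hcc.comp (by fun_prop)).mul (hc.comp (by fun_prop))).measurable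
        · have : Measurable (fun p : E × E => p.1 + κ) := by fun_prop
          exact hg.meas.comp this
    · filter_upwards with p
      simp only [Function.uncurry]
      rw [norm_mul, norm_ee, one_mul, norm_mul, norm_mul, norm_mul, norm_mul, Complex.norm_real,
        Real.norm_eq_abs, abs_of_nonneg (by
          have : 0 ≤ ∫ x, ‖k x‖ := integral_nonneg (fun _ => norm_nonneg _)
          positivity)]
      have := norm_ck_le (k := k) (p.1 + p.2)
      rw [norm_mul] at this
      calc ‖F p.2‖ * (‖conj (𝓕 k (p.1 + p.2))‖ * ‖𝓕 k (p.1 + p.2)‖) * ‖g (p.1 + κ)‖ ≤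
          ‖F p.2‖ * ((∫ x, ‖k x‖) * ∫ x, ‖k x‖) * ‖g (p.1 + κ)‖ := by gcongr
        _ = ‖g (p.1 + κ) * F p.2‖ * ((∫ x, ‖k x‖) * ∫ x, ‖k x‖) := by rw [norm_mul]; ring
  · apply Integrable.mono ((integrable_conv hF hg κ).mul_const
      (((∫ x, ‖k x‖) * ∫ x, ‖k x‖ : ℝ) : ℂ))
    · apply Measurable.aestronglyMeasurable
      apply Measurable.mul
      · exact ((hcc.comp (by fun_prop)).mul (hc.comp (by fun_prop))).measurable
      · apply Measurable.mul
        · exact hF.meas.comp measurable_snd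
        · apply Measurable.mul
          · exact (continuous_ee.comp (by fun_prop)).measurable
          · have : Measurable (fun p : E × E => p.1 - p.2 + κ) := by fun_prop
            exact hg.meas.comp this
    · filter_upwards with p
      simp only [Function.uncurry]
      rw [norm_mul, norm_mul (F p.2), norm_mul (ee _), norm_ee, one_mul, norm_mul (_ * _) (_ : ℂ),
        norm_mul (F p.2),
        Complex.norm_real,
        Real.norm_eq_abs, abs_of_nonneg (by
          have : 0 ≤ ∫ x, ‖k x‖ := integral_nonneg (fun _ => norm_nonneg _)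
          positivity)]
      have := norm_ck_le (k := k) (p.1)
      calc ‖conj (𝓕 k p.1) * 𝓕 k p.1‖ * (‖F p.2‖ * ‖g (p.1 - p.2 + κ)‖) ≤
          ((∫ x, ‖k x‖) * ∫ x, ‖k x‖) * (‖F p.2‖ * ‖g (p.1 - p.2 + κ)‖) := by gcongr
        _ = _ := by ring

theorem lintegral_pr_sq {k F g : E → ℂ} (hk : BB k) (hF : BB F) (hg : BB g) :
    ∫⁻ κ, ∫⁻ q, ‖pr k F g κ q‖ₑ ^ 2 = (∫⁻ ζ, ‖Gam k F ζ‖ₑ ^ 2) * ∫⁻ ξ, ‖g ξ‖ₑ ^ 2 := by
  have e1 : ∀ κ, ∫⁻ q, ‖pr k F g κ q‖ₑ ^ 2 = ∫⁻ ζ, ‖Gam k F ζ‖ₑ ^ 2 * ‖g (ζ + κ)‖ₑ ^ 2 := by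
    intro κ
    have hb : BB (fun ζ => Gam k F ζ * g (ζ + κ)) :=
      (hg.comp_add κ).mul_left (continuous_Gam hk hF).measurable (fun ζ => norm_Gam_le hF ζ)
    simp_rw [pr_eq hk hF hg]
    rw [lintegral_fourierInv_sq hb.integrable hb.memLp_two]
    congr 1
    ext ζ
    rw [enorm_mul, mul_pow]
  simp_rw [e1]
  have hm : Measurable (fun p : E × E => ‖Gam k F p.2‖ₑ ^ 2 * ‖g (p.2 + p.1)‖ₑ ^ 2) := by
    have h1 : Measurable (fun p : E × E => p.2 + p.1) := by fun_prop
    have h2 : Measurable (fun p : E × E => ‖Gam k F p.2‖ₑ ^ 2) :=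
      (((continuous_Gam hk hF).measurable.comp measurable_snd).enorm).pow_const 2
    have h3 : Measurable (fun p : E × E => ‖g (p.2 + p.1)‖ₑ ^ 2) :=
      ((hg.meas.comp h1).enorm).pow_const 2
    exact h2.mul h3
  rw [lintegral_lintegral_swap hm.aemeasurable]
  have e2 : ∀ ζ, ∫⁻ κ, ‖Gam k F ζ‖ₑ ^ 2 * ‖g (ζ + κ)‖ₑ ^ 2 =
      ‖Gam k F ζ‖ₑ ^ 2 * ∫⁻ ξ, ‖g ξ‖ₑ ^ 2 := by
    intro ζ
    rw [lintegral_const_mul' _ _ (by simp)]
    congr 1
    exact lintegral_add_left_eq_self (fun x => ‖g x‖ₑ ^ 2) ζ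
  simp_rw [e2]
  rw [lintegral_mul_const]
  exact ((continuous_Gam hk hF).measurable.enorm).pow_const 2

theorem conj_mul_ne {z : ℂ} (hz : z ≠ 0) : conj z * z ≠ 0 := by
  simp [hz]

/-- The weight is not identically zero when `k = F` is the indicator of a ball. -/
theorem lintegral_Gam_ne_zero {ρ : ℝ} (hρ : 0 < ρ) :
    ∫⁻ ζ, ‖Gam ((closedBall (0 : E) ρ).indicator (fun _ => 1))
      ((closedBall (0 : E) ρ).indicator (fun _ => 1)) ζ‖ₑ ^ 2 ≠ 0 := by
  set k : E → ℂ := (closedBall (0 : E) ρ).indicator (fun _ => 1) with hkdef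
  have hk : BB k := by
    refine ⟨measurable_const.indicator measurableSet_closedBall, ⟨1, zero_le_one, ?_⟩,
      ⟨ρ, hρ.le, ?_⟩⟩
    · intro x
      rw [hkdef]
      refine (norm_indicator_le_norm_self _ _).trans ?_
      simp
    · intro x hx
      rw [hkdef, indicator_of_notMem]
      simpa using hx
  intro h0
  have hG := continuous_Gam hk hk
  rw [lintegral_eq_zero_iff (hG.measurable.enorm.pow_const 2)] at h0
  have h1 : Gam k k =ᵐ[volume] (fun _ => 0) := by
    filter_upwards [h0] with x hx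
    simpa using hx
  have h2 : Gam k k = (fun _ => 0) := (hG.ae_eq_iff_eq _ continuous_const).1 h1
  have h3 : Gam k k 0 = 0 := by rw [h2]
  rw [Gam] at h3
  have hc := continuous_fourier_bb hk
  -- real form
  have h4 : ∀ α, k α * (conj (𝓕 k (0 + α)) * 𝓕 k (0 + α)) =
      (((closedBall (0 : E) ρ).indicator (fun α => ‖𝓕 k α‖ ^ 2) α : ℝ) : ℂ) := by
    intro α
    rw [zero_add, hkdef]
    by_cases hα : α ∈ closedBall (0 : E) ρ
    · rw [indicator_of_mem hα, indicator_of_mem hα, one_mul, Complex.conj_mul']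
      norm_cast
    · rw [indicator_of_notMem hα, indicator_of_notMem hα, zero_mul]
      simp
  simp_rw [h4] at h3
  rw [integral_complex_ofReal, ofReal_eq_zero, integral_indicator measurableSet_closedBall] at h3
  have h5 : 0 < ∫ α in closedBall (0 : E) ρ, ‖𝓕 k α‖ ^ 2 := by
    rw [setIntegral_pos_iff_support_of_nonneg_ae]
    · have hne : 𝓕 k 0 ≠ 0 := by
        have e0 : ee 0 = 1 := by
          have := norm_ee 0
          rw [ee] 
          simp
        have e1 : 𝓕 k 0 = ∫ x, k x := by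
          rw [fourier_eq_ee]
          congr 1
          ext ξ
          rw [inner_zero_right, neg_zero, e0, one_mul]
        rw [e1, hkdef, integral_indicator_const _ measurableSet_closedBall]
        have h6 : 0 < (volume : Measure E).real (closedBall (0 : E) ρ) := by
          rw [measureReal_def]
          apply ENNReal.toReal_pos
          · exact (measure_closedBall_pos _ _ hρ).ne'
          · exact (isCompact_closedBall (0 : E) ρ).measure_lt_top.ne
        simpa using h6.ne'
      have hop : IsOpen ({α | 𝓕 k α ≠ 0} ∩ ball (0 : E) ρ) :=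
        (isOpen_ne_fun hc continuous_const).inter isOpen_ball
      have : 0 < (volume : Measure E) ({α | 𝓕 k α ≠ 0} ∩ ball (0 : E) ρ) :=
        hop.measure_pos _ ⟨0, hne, by simpa using hρ⟩
      refine this.trans_le (measure_mono ?_)
      rintro α ⟨h1, h2⟩
      refine ⟨?_, ball_subset_closedBall h2⟩
      simpa using h1
    · filter_upwards with α
      positivity
    · exact (hc.norm.pow 2).continuousOn.integrableOn_compact (isCompact_closedBall _ _)
  exact h5.ne' h3

end

end Pool.Agent.H52
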