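import Mathlib
import Pool.Agent.H52.Pair

/-!
Choice of a good phase space point.
-/

open MeasureTheory Complex Set FourierTransform Metric
open scoped Topology ENNReal ComplexConjugate

namespace Pool.Agent.H52

noncomputable section

set_option linter.unusedSectionVars false

variable {E : Type*} [NormedAddCommGroup E] [InnerProductSpace ℝ E] [FiniteDimensional ℝ E]
  [MeasurableSpace E] [BorelSpace E]

attribute [local irreducible] T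

theorem mass_le {k F g : E → ℂ} (hk : BB k) (hF : BB F) (hg : BB g) :
    ∫⁻ κ : E, ∫⁻ q : E, ∫⁻ ξ, ‖T k F g κ q ξ‖ₑ ^ 2 ≤
      (∫⁻ β, ‖k β‖ₑ ^ 2) * (∫⁻ α, ‖F α‖ₑ ^ 2) * ∫⁻ ξ, ‖g ξ‖ₑ ^ 2 := by
  have h := loc_le hk hF hg (Measure.dirac 0) (b := fun _ => 1) (a2 := fun _ => 1)
    measurable_const measurable_const (Filter.Eventually.of_forall (fun _ _ _ _ _ _ => le_rfl))
  simp only [lintegral_dirac, one_mul] at h
  rw [lintegral_S_sq hg] at h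
  refine le_trans (le_of_eq ?_) h
  congr 1
  ext κ
  congr 1
  ext q
  rw [lintegral_S_sq (bb_T hk hF hg κ q)]

/-- The energy of the localised data. -/
def Aen (k F g : E → ℂ) (τ : Measure ℝ) (b : E → ℝ≥0∞) (κ q : E) : ℝ≥0∞ :=
  ∫⁻ t, (∫⁻ x, b (x + q - (4 * Real.pi * t) • κ) * ‖S t (T k F g κ q) x‖ₑ ^ 2) ∂τ

theorem lintegral_sq_lt_top {g : E → ℂ} (hg : MemLp g 2) : ∫⁻ ξ, ‖g ξ‖ₑ ^ 2 < ⊤ := by
  have := hg.eLpNorm_ne_top
  rw [eLpNorm_eq_lintegral_rpow_enorm_toReal (by norm_num) (by norm_num)] at this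
  simp only [ENNReal.toReal_ofNat, one_div] at this
  rw [lt_top_iff_ne_top]
  intro h
  apply this
  have h2 : ∫⁻ (x : E), ‖g x‖ₑ ^ (2 : ℝ) = ⊤ := by
    rw [← h]; congr 1; ext x; norm_cast
  rw [h2]
  simp

theorem exists_good {k F g : E → ℂ} (hk : BB k) (hF : BB F) (hg : BB g) (τ : Measure ℝ) [SFinite τ]
    {b a2 : E → ℝ≥0∞} (hb : Measurable b) (ha2 : Measurable a2)
    (hshift : ∀ᵐ t ∂τ, ∀ β α X, k β ≠ 0 → F α ≠ 0 → b X ≤ a2 (X - β + (4 * Real.pi * t) • α))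
    {n ε : ℝ≥0∞} (hn : n ≠ ⊤) (hεt : ε ≠ ⊤)
    (hε : ε * (2 * ((∫⁻ β, ‖k β‖ₑ ^ 2) * (∫⁻ α, ‖F α‖ₑ ^ 2))) <
      ∫⁻ ζ, ‖Gam k F ζ‖ₑ ^ 2)
    (hbad : n * ∫⁻ t, (∫⁻ x, a2 x * ‖S t g x‖ₑ ^ 2) ∂τ < ∫⁻ ξ, ‖g ξ‖ₑ ^ 2) :
    ∃ κ q, ε * ((∫⁻ ξ, ‖T k F g κ q ξ‖ₑ ^ 2) + n * Aen k F g τ b κ q) < ‖pr k F g κ q‖ₑ ^ 2 := by
  by_contra hcon
  push Not at hcon
  set N := ∫⁻ ξ, ‖g ξ‖ₑ ^ 2 with hN
  set K := (∫⁻ β, ‖k β‖ₑ ^ 2) * (∫⁻ α, ‖F α‖ₑ ^ 2) with hK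
  set G := ∫⁻ ζ, ‖Gam k F ζ‖ₑ ^ 2 with hG
  have hN0 : N ≠ 0 := (lt_of_le_of_lt zero_le hbad).ne'
  have hNtop : N ≠ ⊤ := (lintegral_sq_lt_top hg.memLp_two).ne
  have h1 : G * N ≤ ε * (K * N + n * (K * ∫⁻ t, (∫⁻ x, a2 x * ‖S t g x‖ₑ ^ 2) ∂τ)) := by
    rw [← lintegral_pr_sq hk hF hg]
    calc ∫⁻ κ, ∫⁻ q, ‖pr k F g κ q‖ₑ ^ 2 ≤
        ∫⁻ κ, ∫⁻ q, ε * ((∫⁻ ξ, ‖T k F g κ q ξ‖ₑ ^ 2) + n * Aen k F g τ b κ q) := by
          gcongr with κ q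
          exact hcon κ q
      _ = ε * ((∫⁻ κ : E, ∫⁻ q : E, ∫⁻ ξ, ‖T k F g κ q ξ‖ₑ ^ 2) +
          n * ∫⁻ κ : E, ∫⁻ q : E, Aen k F g τ b κ q) := by
          have hm : Measurable (fun p : E × E => ∫⁻ ξ, ‖T k F g p.1 p.2 ξ‖ₑ ^ 2) := by
            apply Measurable.lintegral_prod_right (f := fun (p : E × E) (ξ : E) =>
              ‖T k F g p.1 p.2 ξ‖ₑ ^ 2)
            have h1 : Measurable (fun p : (E × E) × E => ((p.1.1, p.1.2, p.2) : E × E × E)) := by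
              fun_prop
            exact (((measurable_T hk hF hg).comp h1).enorm).pow_const 2
          have e1 : ∀ κ, ∫⁻ q, ε * ((∫⁻ ξ, ‖T k F g κ q ξ‖ₑ ^ 2) + n * Aen k F g τ b κ q) =
              ε * ((∫⁻ q, ∫⁻ ξ, ‖T k F g κ q ξ‖ₑ ^ 2) + n * ∫⁻ q, Aen k F g τ b κ q) := by
            intro κ
            rw [lintegral_const_mul' _ _ hεt, lintegral_add_left, lintegral_const_mul' _ _ hn]
            have h1 : Measurable (fun q : E => ((κ, q) : E × E)) := by fun_prop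
            exact hm.comp h1
          simp_rw [e1]
          rw [lintegral_const_mul' _ _ hεt, lintegral_add_left, lintegral_const_mul' _ _ hn]
          exact Measurable.lintegral_prod_right (f := fun (κ q : E) =>
              ∫⁻ ξ, ‖T k F g κ q ξ‖ₑ ^ 2) hm
      _ ≤ _ := by
          gcongr
          · exact mass_le hk hF hg
          · exact loc_le hk hF hg τ hb ha2 hshift
  have h2 : n * (K * ∫⁻ t, (∫⁻ x, a2 x * ‖S t g x‖ₑ ^ 2) ∂τ) ≤ K * N := by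
    calc _ = K * (n * ∫⁻ t, (∫⁻ x, a2 x * ‖S t g x‖ₑ ^ 2) ∂τ) := by ring
      _ ≤ _ := by gcongr
  have h3 : G * N ≤ (ε * (2 * K)) * N := by
    calc G * N ≤ _ := h1
      _ ≤ ε * (K * N + K * N) := by gcongr
      _ = _ := by ring
  have h4 : (ε * (2 * K)) * N < G * N := by
    exact (ENNReal.mul_lt_mul_iff_left hN0 hNtop).2 hε
  exact absurd h3 (not_le.2 h4)

end

end Pool.Agent.H52
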