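import Mathlib
import Pool.Agent.H52.Good

/-!
Weak sequential compactness in `L²`.
-/

open MeasureTheory Complex Set FourierTransform Metric Filter
open scoped Topology ENNReal ComplexConjugate

namespace Pool.Agent.H52

noncomputable section

set_option linter.unusedSectionVars false

theorem weak_seq_compact {H : Type*} [NormedAddCommGroup H] [InnerProductSpace ℂ H]
    [CompleteSpace H] [TopologicalSpace.SeparableSpace H] {x : ℕ → H} {R : ℝ}
    (hx : ∀ n, ‖x n‖ ≤ R) :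
    ∃ y : H, ∃ φ : ℕ → ℕ, StrictMono φ ∧ ∀ w : H,
      Tendsto (fun n => inner ℂ w (x (φ n))) atTop (𝓝 (inner ℂ w y)) := by
  have hc := WeakDual.isSeqCompact_closedBall ℂ H (0 : StrongDual ℂ H) R
  set L : ℕ → WeakDual ℂ H := fun n => WeakDual.toStrongDual.symm (InnerProductSpace.toDual ℂ H (x n))
    with hL
  have hmem : ∀ n, L n ∈ WeakDual.toStrongDual ⁻¹' closedBall (0 : StrongDual ℂ H) R := by
    intro n
    rw [mem_preimage, mem_closedBall_zero_iff, hL]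
    simpa using hx n
  obtain ⟨l, hl, φ, hφ, hlim⟩ := hc hmem
  refine ⟨(InnerProductSpace.toDual ℂ H).symm (WeakDual.toStrongDual l), φ, hφ, fun w => ?_⟩
  have h1 : Tendsto (fun n => L (φ n) w) atTop (𝓝 (l w)) :=
    ((WeakDual.eval_continuous w).tendsto l).comp hlim
  have h2 : ∀ n, L (φ n) w = inner ℂ (x (φ n)) w := by
    intro n
    simp [hL]
  have h3 : l w = inner ℂ ((InnerProductSpace.toDual ℂ H).symm (WeakDual.toStrongDual l)) w := by
    rw [InnerProductSpace.toDual_symm_apply]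
    rfl
  have h5 : inner ℂ w ((InnerProductSpace.toDual ℂ H).symm (WeakDual.toStrongDual l)) =
      conj (l w) := by
    rw [h3, inner_conj_symm]
  have h6 : ∀ n, inner ℂ w (x (φ n)) = conj (L (φ n) w) := by
    intro n
    rw [h2, inner_conj_symm]
  rw [h5]
  simp_rw [h6]
  exact (Complex.continuous_conj.tendsto _).comp h1

variable {E : Type*} [NormedAddCommGroup E] [InnerProductSpace ℝ E] [FiniteDimensional ℝ E]
  [MeasurableSpace E] [BorelSpace E]

theorem norm_toLp_sq {g : E → ℂ} (hg : MemLp g 2) :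
    ENNReal.ofReal (‖hg.toLp g‖ ^ 2) = ∫⁻ ξ, ‖g ξ‖ₑ ^ 2 := by
  rw [ENNReal.ofReal_pow (norm_nonneg _), ofReal_norm, Lp.enorm_toLp,
    eLpNorm_eq_lintegral_rpow_enorm_toReal (by norm_num) (by norm_num)]
  simp only [ENNReal.toReal_ofNat, one_div]
  rw [← ENNReal.rpow_natCast, ← ENNReal.rpow_mul]
  norm_num

theorem weak_limit {h : ℕ → E → ℂ} (hh : ∀ n, MemLp (h n) 2) {R : ℝ≥0∞} (hR : R ≠ ⊤)
    (hb : ∀ n, ∫⁻ ξ, ‖h n ξ‖ₑ ^ 2 ≤ R) :
    ∃ H : E → ℂ, MemLp H 2 ∧ ∃ φ : ℕ → ℕ, StrictMono φ ∧ ∀ w : E → ℂ, MemLp w 2 →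
      Tendsto (fun n => ∫ ξ, w ξ * h (φ n) ξ) atTop (𝓝 (∫ ξ, w ξ * H ξ)) := by
  set x : ℕ → Lp ℂ 2 (volume : Measure E) := fun n => (hh n).toLp (h n) with hx
  have hxb : ∀ n, ‖x n‖ ≤ Real.sqrt R.toReal := by
    intro n
    apply Real.le_sqrt_of_sq_le
    have h1 := norm_toLp_sq (hh n)
    rw [← ENNReal.ofReal_le_ofReal_iff ENNReal.toReal_nonneg, ENNReal.ofReal_toReal hR, hx]
    simp only
    rw [h1]
    exact hb n
  have : Fact ((1 : ℝ≥0∞) ≤ 2) := ⟨by norm_num⟩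
  have : Fact ((2 : ℝ≥0∞) ≠ ⊤) := ⟨by norm_num⟩
  obtain ⟨y, φ, hφ, hlim⟩ := weak_seq_compact hxb
  refine ⟨y, Lp.memLp y, φ, hφ, fun w hw => ?_⟩
  have hw' : MemLp (fun ξ => conj (w ξ)) 2 volume := hw.star
  have h1 := hlim (hw'.toLp _)
  simp only [L2.inner_def] at h1
  have h2 : ∀ (z : Lp ℂ 2 (volume : Measure E)), ∫ (a : E), inner ℂ ((hw'.toLp _ : Lp ℂ 2 _) a) (z a)
      = ∫ a, w a * z a := by
    intro z
    apply integral_congr_ae
    filter_upwards [hw'.coeFn_toLp] with a ha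
    rw [ha]
    simp [mul_comm]
  rw [h2] at h1
  refine h1.congr (fun n => ?_)
  rw [h2]
  apply integral_congr_ae
  filter_upwards [(hh (φ n)).coeFn_toLp] with a ha
  rw [hx]
  simp only
  rw [ha]

end

end Pool.Agent.H52
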