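import Mathlib
import Pool.Agent.H52.Weak

/-!
A common time interval on which finitely many test functions see the solution.
-/

open MeasureTheory Complex Set FourierTransform Metric Filter
open scoped Topology ENNReal ComplexConjugate

namespace Pool.Agent.H52

noncomputable section

set_option linter.unusedSectionVars false

variable {E : Type*} [NormedAddCommGroup E] [InnerProductSpace ℝ E] [FiniteDimensional ℝ E]
  [MeasurableSpace E] [BorelSpace E]

theorem memLp_ph_mul {h : E → ℂ} (hh : MemLp h 2) (t : ℝ) : MemLp (fun ξ => ph t ξ * h ξ) 2 := by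
  apply MemLp.of_le hh
  · exact (continuous_ph_right t).aestronglyMeasurable.mul hh.aestronglyMeasurable
  · filter_upwards with ξ
    rw [norm_mul, norm_ph, one_mul]

/-- Test functions supported in a ball. -/
structure TF (z : E) (r : ℝ) (φ : E → ℂ) : Prop where
  cont : Continuous φ
  cpt : HasCompactSupport φ
  sub : tsupport φ ⊆ ball z r

theorem TF.integrable {z : E} {r : ℝ} {φ : E → ℂ} (hφ : TF z r φ) : Integrable φ :=
  hφ.cont.integrable_of_hasCompactSupport hφ.cpt

theorem TF.memLp {z : E} {r : ℝ} {φ : E → ℂ} (hφ : TF z r φ) : MemLp φ 2 :=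
  hφ.cont.memLp_of_hasCompactSupport hφ.cpt

/-- The observable `t ↦ ⟨φ, S_t h⟩` on the Fourier side. -/
def Hob (φ h : E → ℂ) (t : ℝ) : ℂ := ∫ ξ, 𝓕⁻ φ ξ * (ph t ξ * h ξ)

theorem continuous_Hob {φ h : E → ℂ} (hφ : MemLp (𝓕⁻ φ) 2) (hh : MemLp h 2) :
    Continuous (Hob φ h) := by
  unfold Hob
  apply continuous_of_dominated (bound := fun ξ => ‖𝓕⁻ φ ξ * h ξ‖)
  · intro t
    exact hφ.aestronglyMeasurable.mul (memLp_ph_mul hh t).aestronglyMeasurable
  · intro t
    filter_upwards with ξ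
    rw [norm_mul, norm_mul, norm_mul, norm_ph, one_mul]
  · exact (hφ.integrable_mul hh).norm
  · filter_upwards with ξ
    exact continuous_const.mul ((continuous_ph_left ξ).mul continuous_const)

theorem exists_interval {h : E → ℂ} (hh : MemLp h 2) (hne : ¬ h =ᵐ[volume] 0) {r : ℝ} (hr : 0 < r)
    (I : Finset E) {T₀ T₁ : ℝ} (hT : T₀ < T₁) :
    ∃ s₁ s₂ : ℝ, T₀ ≤ s₁ ∧ s₁ < s₂ ∧ s₂ ≤ T₁ ∧ ∃ φ : E → E → ℂ, ∀ z ∈ I, TF z r (φ z) ∧
      ∀ t, s₁ < t → t < s₂ → Hob (φ z) h t ≠ 0 := by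
  classical
  induction I using Finset.induction_on with
  | empty => exact ⟨T₀, T₁, le_rfl, hT, le_rfl, fun _ _ => 0, by simp⟩
  | insert z I hz ih =>
    obtain ⟨s₁, s₂, h1, h2, h3, φ, hφ⟩ := ih
    have hex : ∃ ψ : E → ℂ, TF z r ψ ∧ ∃ t, s₁ < t ∧ t < s₂ ∧ Hob ψ h t ≠ 0 := by
      by_contra hcon
      push Not at hcon
      apply hne
      apply schrodinger_unique hh hr h2
      intro ψ a1 a2 a3 t ht1 ht2
      exact hcon ψ ⟨a1, a2, a3⟩ t ht1 ht2
    obtain ⟨ψ, hψ, t₀, ht1, ht2, ht3⟩ := hex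
    have hc : Continuous (Hob ψ h) :=
      continuous_Hob (memLp_fourierInv hψ.integrable hψ.memLp) hh
    have hop : IsOpen ({t | Hob ψ h t ≠ 0} ∩ Ioo s₁ s₂) :=
      (isOpen_ne_fun hc continuous_const).inter isOpen_Ioo
    obtain ⟨δ, hδ0, hδ⟩ := Metric.isOpen_iff.1 hop t₀ ⟨ht3, ht1, ht2⟩
    have hsub : ∀ t, t₀ - δ < t → t < t₀ + δ → t ∈ ({t | Hob ψ h t ≠ 0} ∩ Ioo s₁ s₂) := by
      intro t a b
      apply hδ
      rw [Real.ball_eq_Ioo]
      exact ⟨a, b⟩
    refine ⟨t₀ - δ / 2, t₀ + δ / 2, ?_, by linarith, ?_, Function.update φ z ψ, ?_⟩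
    · have := (hsub (t₀ - δ / 2) (by linarith) (by linarith)).2.1
      linarith
    · have := (hsub (t₀ + δ / 2) (by linarith) (by linarith)).2.2
      linarith
    · intro w hw
      rw [Finset.mem_insert] at hw
      by_cases hwz : w = z
      · subst hwz
        rw [Function.update_self]
        exact ⟨hψ, fun t a b => (hsub t (by linarith) (by linarith)).1⟩
      · rw [Function.update_of_ne hwz]
        obtain ⟨b1, b2⟩ := hφ w (hw.resolve_left hwz)
        refine ⟨b1, fun t a b => ?_⟩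
        have := (hsub t (by linarith) (by linarith)).2
        exact b2 t this.1 this.2

end

end Pool.Agent.H52
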