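import Mathlib
import Pool.Agent.H52.Times

/-!
The observability inequality for band-limited data.
-/

open MeasureTheory Complex Set FourierTransform Metric Filter
open scoped Topology ENNReal NNReal ComplexConjugate

namespace Pool.Agent.H52

noncomputable section

set_option linter.unusedSectionVars false

variable {E : Type*} [NormedAddCommGroup E] [InnerProductSpace ℝ E] [FiniteDimensional ℝ E]
  [MeasurableSpace E] [BorelSpace E]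

attribute [local irreducible] T

theorem S_smul (c : ℂ) (g : E → ℂ) (t : ℝ) (x : E) :
    S t (fun ξ => c * g ξ) x = c * S t g x := by
  rw [S_eq, S_eq, ← integral_const_mul]
  congr 1
  ext ξ
  ring

theorem cauchy_schwarz_lintegral {f g : E → ℝ≥0∞} {μ : Measure E} (hf : AEMeasurable f μ)
    (hg : AEMeasurable g μ) :
    (∫⁻ x, f x * g x ∂μ) ^ 2 ≤ (∫⁻ x, f x ^ 2 ∂μ) * ∫⁻ x, g x ^ 2 ∂μ := by
  have h := ENNReal.lintegral_mul_le_Lp_mul_Lq μ (p := 2) (q := 2)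
    (by constructor <;> norm_num) hf hg
  have e : ∀ u : E → ℝ≥0∞, ((∫⁻ x, u x ^ (2 : ℝ) ∂μ) ^ (1 / (2 : ℝ))) ^ 2 = ∫⁻ x, u x ^ 2 ∂μ := by
    intro u
    rw [← ENNReal.rpow_natCast, ← ENNReal.rpow_mul]
    norm_num
  calc (∫⁻ x, f x * g x ∂μ) ^ 2 ≤ ((∫⁻ x, f x ^ (2 : ℝ) ∂μ) ^ (1 / (2 : ℝ)) *
        (∫⁻ x, g x ^ (2 : ℝ) ∂μ) ^ (1 / (2 : ℝ))) ^ 2 := by
          gcongr
          exact h
    _ = _ := by rw [mul_pow, e, e]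

theorem inv_mul_le_inv_of {p ε X : ℝ≥0∞} (h : ε * X ≤ p) : p⁻¹ * X ≤ ε⁻¹ := by
  rw [ENNReal.le_inv_iff_mul_le]
  calc p⁻¹ * X * ε = p⁻¹ * (ε * X) := by ring
    _ ≤ p⁻¹ * p := by gcongr
    _ ≤ 1 := by rw [mul_comm]; exact ENNReal.mul_inv_le_one p

theorem exists_normalised {k g : E → ℂ} (hk : BB k) (hg : BB g) (τ : Measure ℝ)
    [SFinite τ] {b a2 : E → ℝ≥0∞} (hb : Measurable b) (ha2 : Measurable a2)
    (hshift : ∀ᵐ t ∂τ, ∀ β α X, k β ≠ 0 → k α ≠ 0 → b X ≤ a2 (X - β + (4 * Real.pi * t) • α))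
    {n ε : ℝ≥0∞} (hn : n ≠ ⊤) (hεt : ε ≠ ⊤)
    (hε : ε * (2 * ((∫⁻ β, ‖k β‖ₑ ^ 2) * (∫⁻ α, ‖k α‖ₑ ^ 2))) <
      ∫⁻ ζ, ‖Gam k k ζ‖ₑ ^ 2)
    (hbad : n * ∫⁻ t, (∫⁻ x, a2 x * ‖S t g x‖ₑ ^ 2) ∂τ < ∫⁻ ξ, ‖g ξ‖ₑ ^ 2) :
    ∃ κ q : E, ∃ h : E → ℂ, BB h ∧ ∫⁻ ξ, ‖h ξ‖ₑ ^ 2 ≤ ε⁻¹ ∧
      n * (∫⁻ t, (∫⁻ x, b (x + q - (4 * Real.pi * t) • κ) * ‖S t h x‖ₑ ^ 2) ∂τ) ≤ ε⁻¹ ∧
      ∫ ξ, conj (𝓕 k ξ) * h ξ = 1 := by
  obtain ⟨κ, q, hgood⟩ := exists_good hk hk hg τ hb ha2 hshift hn hεt hε hbad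
  set P := pr k k g κ q with hP
  have hP0 : P ≠ 0 := by
    intro h
    rw [h] at hgood
    simp at hgood
  have hPe : ‖P‖ₑ ≠ 0 := by simpa using hP0
  refine ⟨κ, q, fun ξ => P⁻¹ * T k k g κ q ξ, ?_, ?_, ?_, ?_⟩
  · exact (bb_T hk hk hg κ q).mul_left measurable_const (M := ‖P⁻¹‖) (fun _ => le_rfl)
  · have e1 : ∫⁻ ξ, ‖P⁻¹ * T k k g κ q ξ‖ₑ ^ 2 = (‖P‖ₑ ^ 2)⁻¹ * ∫⁻ ξ, ‖T k k g κ q ξ‖ₑ ^ 2 := by
      rw [← lintegral_const_mul' _ _ (by simp [hP0])]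
      congr 1
      ext ξ
      rw [enorm_mul, enorm_inv hP0, mul_pow, ENNReal.inv_pow]
    rw [e1]
    have h1 : ε * ∫⁻ ξ, ‖T k k g κ q ξ‖ₑ ^ 2 ≤ ‖P‖ₑ ^ 2 := by
      refine le_trans ?_ hgood.le
      gcongr
      exact le_self_add
    exact inv_mul_le_inv_of h1
  · have e1 : ∀ t, ∫⁻ x, b (x + q - (4 * Real.pi * t) • κ) *
        ‖S t (fun ξ => P⁻¹ * T k k g κ q ξ) x‖ₑ ^ 2 = (‖P‖ₑ ^ 2)⁻¹ *
        ∫⁻ x, b (x + q - (4 * Real.pi * t) • κ) * ‖S t (T k k g κ q) x‖ₑ ^ 2 := by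
      intro t
      rw [← lintegral_const_mul' _ _ (by simp [hP0])]
      congr 1
      ext x
      rw [S_smul, enorm_mul, enorm_inv hP0, mul_pow, ENNReal.inv_pow]
      ring
    simp_rw [e1]
    rw [lintegral_const_mul' _ _ (by simp [hP0])]
    have h1 : ε * (n * Aen k k g τ b κ q) ≤ ‖P‖ₑ ^ 2 := by
      refine le_trans ?_ hgood.le
      gcongr
      exact le_add_self
    have h2 := inv_mul_le_inv_of h1
    rw [Aen] at h2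
    calc _ = (‖P‖ₑ ^ 2)⁻¹ * (n * ∫⁻ t, (∫⁻ x, b (x + q - (4 * Real.pi * t) • κ) *
          ‖S t (T k k g κ q) x‖ₑ ^ 2) ∂τ) := by ring
      _ ≤ _ := h2
  · have : ∀ ξ, conj (𝓕 k ξ) * (P⁻¹ * T k k g κ q ξ) = P⁻¹ * (conj (𝓕 k ξ) * T k k g κ q ξ) := by
      intro ξ; ring
    simp_rw [this]
    rw [integral_const_mul]
    change P⁻¹ * P = 1
    exact inv_mul_cancel₀ hP0

theorem Hob_eq {z : E} {r : ℝ} {ψ h : E → ℂ} (hψ : TF z r ψ) (hh : BB h) (t : ℝ) :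
    Hob ψ h t = ∫ x, ψ x * S t h x := by
  rw [Hob, integral_fourierInv_mul hψ.integrable (hh.ph_mul t).integrable]
  congr 1
  ext x
  rw [S]

theorem obs_le {z : E} {r : ℝ} {ψ h : E → ℂ} (hψ : TF z r ψ) (hh : BB h) (t : ℝ) {b : E → ℝ≥0∞}
    {c : ℝ≥0∞} (hc0 : c ≠ 0) (hct : c ≠ ⊤) (s : E) (hb : ∀ y ∈ ball z r, c ≤ b (y + s)) :
    ‖Hob ψ h t‖ₑ ^ 2 ≤ (∫⁻ x, ‖ψ x‖ₑ ^ 2) * (c⁻¹ * ∫⁻ x, b (x + s) * ‖S t h x‖ₑ ^ 2) := by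
  rw [Hob_eq hψ hh]
  have hSm : Measurable (fun x => ‖S t h x‖ₑ) := (continuous_S_right hh.integrable t).measurable.enorm
  have h1 : ‖∫ x, ψ x * S t h x‖ₑ ≤ ∫⁻ x, ‖ψ x‖ₑ * (ball z r).indicator (fun x => ‖S t h x‖ₑ) x := by
    refine (enorm_integral_le_lintegral_enorm _).trans (lintegral_mono (fun x => ?_))
    rw [enorm_mul]
    by_cases hx : x ∈ ball z r
    · rw [indicator_of_mem hx]
    · have : ψ x = 0 := by
        by_contra h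
        exact hx (hψ.sub (subset_tsupport _ h))
      simp [this]
  calc ‖∫ x, ψ x * S t h x‖ₑ ^ 2 ≤
      (∫⁻ x, ‖ψ x‖ₑ * (ball z r).indicator (fun x => ‖S t h x‖ₑ) x) ^ 2 := by gcongr
    _ ≤ (∫⁻ x, ‖ψ x‖ₑ ^ 2) * ∫⁻ x, ((ball z r).indicator (fun x => ‖S t h x‖ₑ) x) ^ 2 := by
        apply cauchy_schwarz_lintegral
        · exact hψ.cont.measurable.enorm.aemeasurable
        · exact (hSm.indicator measurableSet_ball).aemeasurable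
    _ ≤ _ := by
        gcongr
        rw [← lintegral_const_mul' _ _ (by simpa using hc0)]
        apply lintegral_mono
        intro x
        simp only
        by_cases hx : x ∈ ball z r
        · rw [indicator_of_mem hx, ← mul_assoc]
          have h2 : 1 ≤ c⁻¹ * b (x + s) := by
            rw [← ENNReal.inv_mul_cancel hc0 hct]
            gcongr
            exact hb x hx
          calc ‖S t h x‖ₑ ^ 2 = 1 * ‖S t h x‖ₑ ^ 2 := (one_mul _).symm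
            _ ≤ _ := by gcongr
        · rw [indicator_of_notMem hx]
          simp

theorem obs_le' {z : E} {r : ℝ} {ψ h : E → ℂ} (hψ : TF z r ψ) (hh : BB h) (t : ℝ) :
    ‖Hob ψ h t‖ₑ ^ 2 ≤ (∫⁻ x, ‖ψ x‖ₑ ^ 2) * ∫⁻ ξ, ‖h ξ‖ₑ ^ 2 := by
  have := obs_le hψ hh t (b := fun _ => 1) (c := 1) one_ne_zero ENNReal.one_ne_top 0
    (fun _ _ => le_rfl)
  simpa [lintegral_S_sq hh] using this

end

end Pool.Agent.H52
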