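import Mathlib

/-!
Definitions used in the statement of the observability theorem.
-/

open MeasureTheory Complex Set FourierTransform

namespace Pool.Agent.H52

noncomputable section

/-- The closed axis-parallel cube with corner `c` and side `L`. -/
def cube {d : ℕ} (c : EuclideanSpace ℝ (Fin d)) (L : ℝ) : Set (EuclideanSpace ℝ (Fin d)) :=
  {x | ∀ i, c i ≤ x i ∧ x i ≤ c i + L}

/-- Relative density: for some `L, η > 0`, the mean of `a` over each closed axis-parallel cube of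
side `L` is at least `η`. -/
def RelDense {d : ℕ} (a : EuclideanSpace ℝ (Fin d) → ℝ) : Prop :=
  ∃ L : ℝ, 0 < L ∧ ∃ η : ℝ, 0 < η ∧ ∀ c : EuclideanSpace ℝ (Fin d),
    η ≤ (L ^ d)⁻¹ * ∫ x in cube c L, a x

variable {E : Type*} [NormedAddCommGroup E] [InnerProductSpace ℝ E] [FiniteDimensional ℝ E]
  [MeasurableSpace E] [BorelSpace E]

/-- The multiplier `exp (4 π² i t |ξ|²)` preserves `L²`. -/
theorem memLp_phase_mul (t : ℝ) {f : E → ℂ} (hf : MemLp f 2) :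
    MemLp (fun ξ => cexp ((4 * Real.pi ^ 2 * t * ‖ξ‖ ^ 2 : ℝ) * I) * f ξ) 2 := by
  have hm : Continuous (fun ξ : E => cexp ((4 * Real.pi ^ 2 * t * ‖ξ‖ ^ 2 : ℝ) * I)) := by
    fun_prop
  apply MemLp.of_le hf
  · exact hm.aestronglyMeasurable.mul hf.aestronglyMeasurable
  · filter_upwards with x
    rw [norm_mul, Complex.norm_exp_ofReal_mul_I, one_mul]

/-- The Schrödinger flow `u₀ ↦ exp (-i t Δ) u₀` on `L²`, as a Fourier multiplier: Mathlib's `L²`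
Fourier transform extends `𝓕 f ξ = ∫ exp (-2 π i ⟨x, ξ⟩) f x dx`, for which `Δ` is
multiplication by `-4 π² |ξ|²`, so that `exp (-i t Δ)` is multiplication by
`exp (4 π² i t |ξ|²)`. -/
def flow (t : ℝ) (u₀ : Lp ℂ 2 (volume : Measure E)) : Lp ℂ 2 (volume : Measure E) :=
  𝓕⁻ ((memLp_phase_mul t (Lp.memLp (𝓕 u₀ : Lp ℂ 2 (volume : Measure E)))).toLp
    (fun ξ => cexp ((4 * Real.pi ^ 2 * t * ‖ξ‖ ^ 2 : ℝ) * I) *
      (𝓕 u₀ : Lp ℂ 2 (volume : Measure E)) ξ))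

/-- Observability from `a` in time `T`: `‖u₀‖² ≤ C ∫₀ᵀ ‖a u(t)‖² dt` for all `u₀ ∈ L²`, where
`u(t) = exp (-i t Δ) u₀`. -/
def ObservableInTime (a : E → ℝ) (T : ℝ) : Prop :=
  ∃ C : ℝ, 0 < C ∧ ∀ u₀ : Lp ℂ 2 (volume : Measure E),
    ‖u₀‖ ^ 2 ≤ C * ∫ t in (0 : ℝ)..T, ∫ x, (a x * ‖flow t u₀ x‖) ^ 2

end

end Pool.Agent.H52
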