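import Mathlib
import Pool.Agent.H52.Defs

/-!
From relative density to a finite family of balls.
-/

open MeasureTheory Complex Set FourierTransform Metric Filter
open scoped Topology ENNReal NNReal ComplexConjugate

namespace Pool.Agent.H52

noncomputable section

set_option linter.unusedSectionVars false

variable {d : ℕ}

theorem isClosed_cube (c : EuclideanSpace ℝ (Fin d)) (L : ℝ) : IsClosed (cube c L) := by
  have : cube c L = ⋂ i, {x : EuclideanSpace ℝ (Fin d) | c i ≤ x i ∧ x i ≤ c i + L} := by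
    ext x
    simp [cube]
  rw [this]
  apply isClosed_iInter
  intro i
  have hc : Continuous (fun x : EuclideanSpace ℝ (Fin d) => x i) := by fun_prop
  exact (isClosed_le continuous_const hc).inter (isClosed_le hc continuous_const)

theorem volume_cube (c : EuclideanSpace ℝ (Fin d)) {L : ℝ} (hL : 0 ≤ L) :
    volume (cube c L) = ENNReal.ofReal (L ^ d) := by
  have h1 : cube c L = (WithLp.ofLp) ⁻¹' (Icc (fun i => c i) (fun i => c i + L)) := by
    ext x
    simp only [cube, mem_ofPred_eq, mem_preimage, mem_Icc, Pi.le_def]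
    exact ⟨fun h => ⟨fun i => (h i).1, fun i => (h i).2⟩, fun h i => ⟨h.1 i, h.2 i⟩⟩
  rw [h1, (PiLp.volume_preserving_ofLp (Fin d)).measure_preimage measurableSet_Icc.nullMeasurableSet,
    Real.volume_Icc_pi]
  simp only [add_sub_cancel_left, Finset.prod_const, Finset.card_univ, Fintype.card_fin]
  rw [ENNReal.ofReal_pow hL]

theorem isCompact_cube (c : EuclideanSpace ℝ (Fin d)) (L : ℝ) : IsCompact (cube c L) := by
  have h1 : cube c L = (WithLp.toLp 2) '' (Icc (fun i => c i) (fun i => c i + L)) := by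
    ext x
    simp only [cube, mem_ofPred_eq, mem_image, mem_Icc, Pi.le_def]
    constructor
    · intro h
      exact ⟨fun i => x i, ⟨fun i => (h i).1, fun i => (h i).2⟩, rfl⟩
    · rintro ⟨y, hy, rfl⟩ i
      exact ⟨hy.1 i, hy.2 i⟩
  rw [h1]
  apply isCompact_Icc.image
  exact PiLp.continuous_toLp 2 _

theorem exists_large {a : EuclideanSpace ℝ (Fin d) → ℝ} (ha : Continuous a) {L η : ℝ} (hL : 0 < L)
    (hη : 0 < η) (hrel : ∀ c : EuclideanSpace ℝ (Fin d), η ≤ (L ^ d)⁻¹ * ∫ x in cube c L, a x)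
    (s : EuclideanSpace ℝ (Fin d)) : ∃ x ∈ cube (0 : EuclideanSpace ℝ (Fin d)) L,
      3 * η / 4 ≤ a (x + s) := by
  by_contra hcon
  push Not at hcon
  have h1 : ∀ x ∈ cube s L, a x ≤ 3 * η / 4 := by
    intro x hx
    have := hcon (x - s) (by
      intro i
      have h2 := hx i
      simp only [PiLp.zero_apply, PiLp.sub_apply]
      constructor <;> linarith [h2.1, h2.2])
    rw [sub_add_cancel] at this
    exact this.le
  have h2 : ∫ x in cube s L, a x ≤ ∫ x in cube s L, 3 * η / 4 := by
    apply setIntegral_mono_on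
    · exact ha.continuousOn.integrableOn_compact (isCompact_cube s L)
    · exact integrableOn_const (isCompact_cube s L).measure_lt_top.ne
    · exact (isClosed_cube s L).measurableSet
    · exact h1
  rw [setIntegral_const, measureReal_def, volume_cube s hL.le, ENNReal.toReal_ofReal (by positivity),
    smul_eq_mul] at h2
  have h3 := hrel s
  have h4 : (L ^ d)⁻¹ * ∫ x in cube s L, a x ≤ (L ^ d)⁻¹ * (L ^ d * (3 * η / 4)) := by gcongr
  rw [← mul_assoc, inv_mul_cancel₀ (by positivity)] at h4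
  linarith

theorem cover_of_dense {a : EuclideanSpace ℝ (Fin d) → ℝ} (ha : UniformContinuous a) {L η : ℝ}
    (hL : 0 < L) (hη : 0 < η)
    (hrel : ∀ c : EuclideanSpace ℝ (Fin d), η ≤ (L ^ d)⁻¹ * ∫ x in cube c L, a x) :
    ∃ δ > 0, (∀ x y, dist x y < δ → a x - η / 4 ≤ a y) ∧
      ∃ I : Finset (EuclideanSpace ℝ (Fin d)), ∀ s : EuclideanSpace ℝ (Fin d), ∃ z ∈ I,
        ∀ y ∈ ball z (δ / 2), η / 2 ≤ a (y + s) := by
  obtain ⟨δ, hδ0, hδ⟩ := Metric.uniformContinuous_iff.1 ha (η / 4) (by positivity)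
  have h1 : ∀ x y, dist x y < δ → a x - η / 4 ≤ a y := by
    intro x y hxy
    have := hδ hxy
    rw [Real.dist_eq, abs_lt] at this
    linarith [this.1, this.2]
  refine ⟨δ, hδ0, h1, ?_⟩
  obtain ⟨t, ht1, ht2, ht3⟩ := (isCompact_cube (0 : EuclideanSpace ℝ (Fin d)) L).finite_cover_balls
    (e := δ / 2) (by positivity)
  refine ⟨ht2.toFinset, fun s => ?_⟩
  obtain ⟨x, hx, hxa⟩ := exists_large ha.continuous hL hη hrel s
  obtain ⟨z, hz, hxz⟩ := mem_iUnion₂.1 (ht3 hx)
  refine ⟨z, by simpa using hz, fun y hy => ?_⟩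
  have hd : dist (x + s) (y + s) < δ := by
    rw [dist_add_right]
    rw [mem_ball] at hxz hy
    calc dist x y ≤ dist x z + dist y z := dist_triangle_right _ _ _
      _ < δ / 2 + δ / 2 := add_lt_add hxz hy
      _ = δ := by ring
  have := h1 _ _ hd
  linarith

end

end Pool.Agent.H52
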