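import Mathlib
import Pool.Agent.H52.Core

/-!
The compactness argument.
-/

open MeasureTheory Complex Set FourierTransform Metric Filter
open scoped Topology ENNReal NNReal ComplexConjugate

namespace Pool.Agent.H52

noncomputable section

set_option linter.unusedSectionVars false

variable {E : Type*} [NormedAddCommGroup E] [InnerProductSpace ℝ E] [FiniteDimensional ℝ E]
  [MeasurableSpace E] [BorelSpace E]

attribute [local irreducible] T

theorem bb_ball {ρ : ℝ} (hρ : 0 ≤ ρ) :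
    BB ((closedBall (0 : E) ρ).indicator (fun _ => (1 : ℂ))) := by
  refine ⟨measurable_const.indicator measurableSet_closedBall, ⟨1, zero_le_one, ?_⟩, ⟨ρ, hρ, ?_⟩⟩
  · intro x
    refine (norm_indicator_le_norm_self _ _).trans ?_
    simp
  · intro x hx
    rw [indicator_of_notMem]
    simpa using hx

theorem core {T₁ : ℝ} (hT : 0 < T₁) {b a2 : E → ℝ≥0∞} (hb : Measurable b) (ha2 : Measurable a2)
    {ρ : ℝ} (hρ : 0 < ρ)
    (hshift : ∀ t : ℝ, 0 ≤ t → t ≤ T₁ → ∀ β α X : E, ‖β‖ ≤ ρ → ‖α‖ ≤ ρ →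
      b X ≤ a2 (X - β + (4 * Real.pi * t) • α))
    (I : Finset E) {r : ℝ} (hr : 0 < r) {c : ℝ≥0∞} (hc0 : c ≠ 0) (hct : c ≠ ⊤)
    (hcover : ∀ s : E, ∃ z ∈ I, ∀ y ∈ ball z r, c ≤ b (y + s)) :
    ∃ C : ℕ, ∀ g : E → ℂ, BB g →
      ∫⁻ ξ, ‖g ξ‖ₑ ^ 2 ≤ C * ∫⁻ t in Icc 0 T₁, (∫⁻ x, a2 x * ‖S t g x‖ₑ ^ 2) := by
  classical
  by_contra hcon
  push Not at hcon
  choose g hg hgbad using hcon
  set k : E → ℂ := (closedBall (0 : E) ρ).indicator (fun _ => (1 : ℂ)) with hkdef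
  have hk : BB k := bb_ball hρ.le
  have hkne : ∀ β : E, k β ≠ 0 → ‖β‖ ≤ ρ := by
    intro β h
    by_contra h2
    apply h
    rw [hkdef, indicator_of_notMem]
    simpa using h2
  set τ : Measure ℝ := volume.restrict (Icc 0 T₁) with hτ
  have hshift' : ∀ᵐ t ∂τ, ∀ β α X, k β ≠ 0 → k α ≠ 0 →
      b X ≤ a2 (X - β + (4 * Real.pi * t) • α) := by
    rw [hτ, ae_restrict_iff' measurableSet_Icc]
    filter_upwards with t ht β α X h1 h2
    exact hshift t ht.1 ht.2 β α X (hkne β h1) (hkne α h2)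
  -- choice of the small parameter
  have hK : (2 * ((∫⁻ β, ‖k β‖ₑ ^ 2) * (∫⁻ α, ‖k α‖ₑ ^ 2))) ≠ ⊤ := by
    have := (lintegral_sq_lt_top hk.memLp_two).ne
    exact ENNReal.mul_ne_top (by norm_num) (ENNReal.mul_ne_top this this)
  have hG : ∫⁻ ζ, ‖Gam k k ζ‖ₑ ^ 2 ≠ 0 := lintegral_Gam_ne_zero hρ
  obtain ⟨ε, hε0, hε⟩ := ENNReal.exists_nnreal_pos_mul_lt hK hG
  have hε0' : (ε : ℝ≥0∞) ≠ 0 := by
    simpa using hε0.ne'
  have hnorm := fun n : ℕ => exists_normalised hk (hg n) τ hb ha2 hshift' (n := (n : ℝ≥0∞))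
    (ε := (ε : ℝ≥0∞)) (by simp) (by simp) hε (hgbad n)
  choose κ q h hhb hh2 hhA hhp using hnorm
  have hRt : ((ε : ℝ≥0∞))⁻¹ ≠ ⊤ := by simpa using hε0.ne'
  obtain ⟨H, hH, φ, hφ, hlim⟩ := weak_limit (fun n => (hhb n).memLp_two) hRt hh2
  -- the limit is nonzero
  have hck : MemLp (fun ξ => conj (𝓕 k ξ)) 2 (volume : Measure E) :=
    (memLp_fourier hk.integrable hk.memLp_two).star
  have hpair : ∫ ξ, conj (𝓕 k ξ) * H ξ = 1 := by
    have h1 := hlim _ hck
    have h2 : Tendsto (fun n => ∫ ξ, conj (𝓕 k ξ) * h (φ n) ξ) atTop (𝓝 1) := by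
      simp_rw [hhp]
      exact tendsto_const_nhds
    exact tendsto_nhds_unique h1 h2
  have hHne : ¬ H =ᵐ[volume] 0 := by
    intro h0
    have : ∫ ξ, conj (𝓕 k ξ) * H ξ = 0 := by
      apply integral_eq_zero_of_ae
      filter_upwards [h0] with ξ hξ
      simp [hξ]
    rw [hpair] at this
    exact one_ne_zero this
  obtain ⟨s₁, s₂, hs1, hs12, hs2, ψ, hψ⟩ := exists_interval hH hHne hr I hT
  -- product of observables
  set P : ℕ → ℝ → ℝ≥0∞ := fun n t => ∏ z ∈ I, ‖Hob (ψ z) (h (φ n)) t‖ₑ ^ 2 with hP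
  have hPlim : ∀ t, Tendsto (fun n => P n t) atTop (𝓝 (∏ z ∈ I, ‖Hob (ψ z) H t‖ₑ ^ 2)) := by
    intro t
    rw [hP]
    apply ENNReal.tendsto_finsetProd_of_ne_top
    · intro z hz
      have hw : MemLp (fun ξ => 𝓕⁻ (ψ z) ξ * ph t ξ) 2 (volume : Measure E) := by
        have h1 := memLp_ph_mul (memLp_fourierInv (hψ z hz).1.integrable (hψ z hz).1.memLp) t
        simpa only [mul_comm] using h1
      have h2 := hlim _ hw
      have e1 : ∀ f : E → ℂ, Hob (ψ z) f t = ∫ ξ, (𝓕⁻ (ψ z) ξ * ph t ξ) * f ξ := by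
        intro f
        rw [Hob]
        congr 1
        ext ξ
        ring
      simp_rw [e1]
      exact ((ENNReal.continuous_pow 2).tendsto _).comp ((continuous_enorm.tendsto _).comp h2)
    · intro z hz
      simp
  have hPmeas : ∀ n, Measurable (P n) := by
    intro n
    rw [hP]
    apply Finset.measurable_fun_prod
    intro z hz
    have h1 := continuous_Hob (memLp_fourierInv (hψ z hz).1.integrable (hψ z hz).1.memLp)
      (hhb (φ n)).memLp_two
    exact h1.measurable.enorm.pow_const 2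
  set D : ℝ≥0∞ := ∑ z ∈ I, ∫⁻ x, ‖ψ z x‖ₑ ^ 2 with hD
  have hDt : D ≠ ⊤ := by
    rw [hD]
    apply (ENNReal.sum_lt_top.2 _).ne
    intro z hz
    exact lintegral_sq_lt_top (hψ z hz).1.memLp
  set M : ℝ≥0∞ := D * (ε : ℝ≥0∞)⁻¹ + 1 with hM
  have hMt : M ≠ ⊤ := by
    rw [hM]
    exact ENNReal.add_ne_top.2 ⟨ENNReal.mul_ne_top hDt hRt, ENNReal.one_ne_top⟩
  set en : ℕ → ℝ → ℝ≥0∞ := fun n t => ∫⁻ x, b (x + q n - (4 * Real.pi * t) • κ n) *
    ‖S t (h n) x‖ₑ ^ 2 with hen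
  have hPle : ∀ n t, P n t ≤ M ^ I.card * (D * c⁻¹) * en (φ n) t := by
    intro n t
    obtain ⟨z, hz, hzb⟩ := hcover (q (φ n) - (4 * Real.pi * t) • κ (φ n))
    rw [hP]
    simp only
    rw [← Finset.mul_prod_erase I _ hz]
    have h1 : ‖Hob (ψ z) (h (φ n)) t‖ₑ ^ 2 ≤ (D * c⁻¹) * en (φ n) t := by
      refine (obs_le (hψ z hz).1 (hhb (φ n)) t hc0 hct _ hzb).trans ?_
      have e1 : D * c⁻¹ * en (φ n) t = D * (c⁻¹ * en (φ n) t) := mul_assoc _ _ _
      rw [e1]
      gcongr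
      · rw [hD]
        exact Finset.single_le_sum (f := fun z => ∫⁻ x, ‖ψ z x‖ₑ ^ 2) (fun _ _ => zero_le) hz
      · rw [hen]
        simp only
        apply lintegral_mono
        intro x
        simp only
        rw [add_sub_assoc]
    have h2 : ∏ w ∈ I.erase z, ‖Hob (ψ w) (h (φ n)) t‖ₑ ^ 2 ≤ M ^ I.card := by
      calc ∏ w ∈ I.erase z, ‖Hob (ψ w) (h (φ n)) t‖ₑ ^ 2 ≤ ∏ w ∈ I.erase z, M := by
            apply Finset.prod_le_prod' 
            intro w hw
            have hw' := Finset.mem_of_mem_erase hw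
            refine (obs_le' (hψ w hw').1 (hhb (φ n)) t).trans ?_
            rw [hM]
            refine le_trans ?_ (le_self_add)
            gcongr
            · rw [hD]
              exact Finset.single_le_sum (f := fun z => ∫⁻ x, ‖ψ z x‖ₑ ^ 2)
                (fun _ _ => zero_le) hw'
            · exact hh2 _
        _ = M ^ (I.erase z).card := by rw [Finset.prod_const]
        _ ≤ M ^ I.card := by
            apply pow_le_pow_right₀
            · rw [hM]; exact le_add_self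
            · exact Finset.card_le_card (Finset.erase_subset _ _)
    calc _ ≤ ((D * c⁻¹) * en (φ n) t) * M ^ I.card := by gcongr
      _ = _ := by ring
  -- the integral of the product tends to zero
  set K2 : ℝ≥0∞ := M ^ I.card * (D * c⁻¹) with hK2
  have hK2t : K2 ≠ ⊤ := by
    rw [hK2]
    exact ENNReal.mul_ne_top (ENNReal.pow_ne_top hMt)
      (ENNReal.mul_ne_top hDt (by simpa using hc0))
  have hJsub : Ioo s₁ s₂ ⊆ Icc 0 T₁ := fun t ht => ⟨by linarith [ht.1], by linarith [ht.2]⟩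
  have hint : ∀ n, 1 ≤ n → ∫⁻ t in Ioo s₁ s₂, P n t ≤ K2 * ((ε : ℝ≥0∞)⁻¹ / (φ n : ℕ)) := by
    intro n hn
    calc ∫⁻ t in Ioo s₁ s₂, P n t ≤ ∫⁻ t in Ioo s₁ s₂, K2 * en (φ n) t :=
          lintegral_mono (fun t => hPle n t)
      _ = K2 * ∫⁻ t in Ioo s₁ s₂, en (φ n) t := lintegral_const_mul' _ _ hK2t
      _ ≤ K2 * ∫⁻ t in Icc 0 T₁, en (φ n) t := by
          gcongr
      _ ≤ _ := by
          gcongr
          have h1 : (φ n : ℝ≥0∞) ≠ 0 := by
            have := hφ.id_le n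
            have h2 : φ n ≠ 0 := by
              simp only [id] at this
              omega
            exact_mod_cast h2
          rw [ENNReal.le_div_iff_mul_le (Or.inl h1) (Or.inl (by simp)), mul_comm]
          exact hhA (φ n)
  have hlim0 : Tendsto (fun n => K2 * ((ε : ℝ≥0∞)⁻¹ / (φ n : ℕ))) atTop (𝓝 0) := by
    have h1 : Tendsto (fun n => ((φ n : ℕ) : ℝ≥0∞)⁻¹) atTop (𝓝 0) :=
      ENNReal.tendsto_inv_nat_nhds_zero.comp hφ.tendsto_atTop
    have h2 : Tendsto (fun n => (K2 * (ε : ℝ≥0∞)⁻¹) * ((φ n : ℕ) : ℝ≥0∞)⁻¹) atTop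
        (𝓝 ((K2 * (ε : ℝ≥0∞)⁻¹) * 0)) :=
      ENNReal.Tendsto.const_mul h1 (Or.inr (ENNReal.mul_ne_top hK2t hRt))
    rw [mul_zero] at h2
    refine h2.congr (fun n => ?_)
    rw [div_eq_mul_inv, mul_assoc]
  have hI0 : Tendsto (fun n => ∫⁻ t in Ioo s₁ s₂, P n t) atTop (𝓝 0) := by
    apply tendsto_of_tendsto_of_tendsto_of_le_of_le' tendsto_const_nhds hlim0
    · exact Eventually.of_forall (fun _ => zero_le)
    · filter_upwards [eventually_ge_atTop 1] with n hn using hint n hn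
  have hfatou := lintegral_liminf_le (μ := volume.restrict (Ioo s₁ s₂)) (u := atTop) hPmeas
  rw [hI0.liminf_eq] at hfatou
  have hzero : ∫⁻ t in Ioo s₁ s₂, ∏ z ∈ I, ‖Hob (ψ z) H t‖ₑ ^ 2 = 0 := by
    apply le_antisymm _ zero_le
    refine le_trans (le_of_eq ?_) hfatou
    apply lintegral_congr
    intro t
    exact (hPlim t).liminf_eq.symm
  rw [lintegral_eq_zero_iff'] at hzero
  · rw [EventuallyEq, ae_restrict_iff' measurableSet_Ioo] at hzero
    have hfalse : ∀ᵐ t ∂(volume : Measure ℝ), t ∉ Ioo s₁ s₂ := by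
      filter_upwards [hzero] with t ht hmem
      have h1 := ht hmem
      rw [Pi.zero_apply, Finset.prod_eq_zero_iff] at h1
      obtain ⟨z, hz, hz0⟩ := h1
      have h2 := (hψ z hz).2 t hmem.1 hmem.2
      simp at hz0
      exact h2 hz0
    have h2 : volume (Ioo s₁ s₂) = 0 := by
      rw [ae_iff] at hfalse
      refine measure_mono_null ?_ hfalse
      intro t ht
      simpa using ht
    rw [Real.volume_Ioo] at h2
    simp at h2
    linarith
  · apply Measurable.aemeasurable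
    apply Finset.measurable_fun_prod
    intro z hz
    have h1 := continuous_Hob (memLp_fourierInv (hψ z hz).1.integrable (hψ z hz).1.memLp) hH
    exact h1.measurable.enorm.pow_const 2

end

end Pool.Agent.H52
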