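import Mathlib
import Pool.Agent.H52.Main
import Pool.Agent.H52.Defs

/-!
The Schrödinger flow on `L²` and the passage from band-limited data to all data.
-/

open MeasureTheory Complex Set FourierTransform Metric Filter SchwartzMap
open scoped Topology ENNReal NNReal ComplexConjugate

namespace Pool.Agent.H52

noncomputable section

set_option linter.unusedSectionVars false

variable {E : Type*} [NormedAddCommGroup E] [InnerProductSpace ℝ E] [FiniteDimensional ℝ E]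
  [MeasurableSpace E] [BorelSpace E]

/-- For an integrable and square integrable function, the `L²` inverse Fourier transform is the
inverse Fourier integral. -/
theorem fourierInv_toLp_ae_eq {f : E → ℂ} (hf1 : Integrable f) (hf2 : MemLp f 2) :
    ((𝓕⁻ (hf2.toLp f) : Lp ℂ 2 (volume : Measure E)) : E → ℂ) =ᵐ[volume] 𝓕⁻ f := by
  set h : Lp ℂ 2 (volume : Measure E) := 𝓕⁻ (hf2.toLp f) with hh
  have hcont : Continuous (𝓕⁻ f) := continuous_fourierInv_of_integrable hf1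
  have hloc : LocallyIntegrable (fun x => (h : E → ℂ) x - 𝓕⁻ f x) volume := by
    exact ((Lp.memLp h).locallyIntegrable (by norm_num)).sub hcont.locallyIntegrable
  have key : ∀ᵐ x ∂(volume : Measure E), (h : E → ℂ) x - 𝓕⁻ f x = 0 := by
    apply ae_eq_zero_of_integral_contDiff_smul_eq_zero hloc
    intro g g_smooth g_cpt
    have hg₁ : HasCompactSupport (Complex.ofRealCLM ∘ g) := g_cpt.comp_left rfl
    have hg₂ : ContDiff ℝ (⊤ : ℕ∞) (Complex.ofRealCLM ∘ g) := by fun_prop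
    set G : 𝓢(E, ℂ) := hg₁.toSchwartzMap hg₂ with hG
    have hGapp : ∀ x, G x = (g x : ℂ) := fun x => rfl
    have e1 : (∫ x, G x • (h : E → ℂ) x) = ∫ x, (𝓕⁻ G) x • f x := by
      have a1 := Lp.fourierInv_toTemperedDistribution_eq (hf2.toLp f)
      have a2 := congrArg (fun D : 𝓢'(E, ℂ) => D G) a1
      simp only [TemperedDistribution.fourierInv_apply, Lp.toTemperedDistribution_apply] at a2
      rw [hh, ← a2]
      apply integral_congr_ae
      filter_upwards [hf2.coeFn_toLp] with x hx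
      rw [hx]
    have e2 : (∫ x, (𝓕⁻ G) x • f x) = ∫ x, G x • (𝓕⁻ f) x := by
      rw [SchwartzMap.fourierInv_coe]
      exact integral_fourierInv_mul G.integrable hf1
    have i1 : Integrable (fun x => G x • (h : E → ℂ) x) := by
      have : MemLp (fun x => (G x)) 2 volume := G.memLp 2
      exact MemLp.integrable_mul this (Lp.memLp h)
    have i2 : Integrable (fun x => G x • (𝓕⁻ f) x) := by
      have hc : Continuous (fun x => G x • (𝓕⁻ f) x) := G.continuous.mul hcont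
      exact hc.integrable_of_hasCompactSupport (hg₁.mul_right)
    have : ∫ x, g x • ((h : E → ℂ) x - 𝓕⁻ f x) = ∫ x, (G x • (h : E → ℂ) x - G x • 𝓕⁻ f x) := by
      apply integral_congr_ae
      filter_upwards with x
      rw [hGapp, ← smul_sub]
      rfl
    rw [this, integral_sub i1 i2, e1, e2, sub_self]
  filter_upwards [key] with x hx
  exact sub_eq_zero.mp hx

theorem memLp_mul_of_le {m : E → ℂ} (hm : Continuous m) (hb : ∀ x, ‖m x‖ ≤ 1) {f : E → ℂ}
    (hf : MemLp f 2) : MemLp (fun x => m x * f x) 2 := by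
  apply MemLp.of_le hf
  · exact hm.aestronglyMeasurable.mul hf.aestronglyMeasurable
  · filter_upwards with x
    rw [norm_mul]
    calc ‖m x‖ * ‖f x‖ ≤ 1 * ‖f x‖ := by gcongr; exact hb x
      _ = _ := one_mul _

theorem norm_phase (t : ℝ) (ξ : E) : ‖cexp ((4 * Real.pi ^ 2 * t * ‖ξ‖ ^ 2 : ℝ) * I)‖ ≤ 1 := by
  rw [Complex.norm_exp_ofReal_mul_I]

theorem lintegral_sub_toLp {u v : Lp ℂ 2 (volume : Measure E)} :
    ∫⁻ x, ‖u x - v x‖ₑ ^ 2 = ENNReal.ofReal (‖u - v‖ ^ 2) := by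
  have h := norm_toLp_sq (Lp.memLp (u - v))
  rw [Lp.toLp_coeFn] at h
  rw [h]
  apply lintegral_congr_ae
  filter_upwards [Lp.coeFn_sub u v] with x hx
  rw [hx]
  rfl

theorem norm_sub_toLp_mul_le {m : E → ℂ} (hm : Continuous m) (hb : ∀ x, ‖m x‖ ≤ 1)
    (u v : Lp ℂ 2 (volume : Measure E)) :
    ‖(memLp_mul_of_le hm hb (Lp.memLp u)).toLp (fun x => m x * u x) -
      (memLp_mul_of_le hm hb (Lp.memLp v)).toLp (fun x => m x * v x)‖ ≤ ‖u - v‖ := by
  apply Lp.norm_le_norm_of_ae_le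
  filter_upwards [Lp.coeFn_sub u v, Lp.coeFn_sub ((memLp_mul_of_le hm hb (Lp.memLp u)).toLp _)
    ((memLp_mul_of_le hm hb (Lp.memLp v)).toLp _), (memLp_mul_of_le hm hb (Lp.memLp u)).coeFn_toLp,
    (memLp_mul_of_le hm hb (Lp.memLp v)).coeFn_toLp] with x h1 h2 h3 h4
  rw [h1, h2, Pi.sub_apply, Pi.sub_apply, h3, h4, ← mul_sub, norm_mul]
  calc ‖m x‖ * ‖u x - v x‖ ≤ 1 * ‖u x - v x‖ := by gcongr; exact hb x
    _ = _ := one_mul _

theorem norm_fourier_sub (u v : Lp ℂ 2 (volume : Measure E)) :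
    ‖(𝓕 u : Lp ℂ 2 (volume : Measure E)) - 𝓕 v‖ = ‖u - v‖ := by
  change ‖Lp.fourierTransformₗᵢ E ℂ u - Lp.fourierTransformₗᵢ E ℂ v‖ = _
  rw [← map_sub, LinearIsometryEquiv.norm_map]

theorem norm_fourierInv_sub (u v : Lp ℂ 2 (volume : Measure E)) :
    ‖(𝓕⁻ u : Lp ℂ 2 (volume : Measure E)) - 𝓕⁻ v‖ = ‖u - v‖ := by
  change ‖(Lp.fourierTransformₗᵢ E ℂ).symm u - (Lp.fourierTransformₗᵢ E ℂ).symm v‖ = _
  rw [← map_sub, LinearIsometryEquiv.norm_map]

theorem norm_flow_sub_le (t : ℝ) (u v : Lp ℂ 2 (volume : Measure E)) :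
    ‖flow t u - flow t v‖ ≤ ‖u - v‖ := by
  rw [flow, flow, norm_fourierInv_sub]
  refine (norm_sub_toLp_mul_le (by fun_prop) (norm_phase t) _ _).trans ?_
  rw [norm_fourier_sub]

theorem continuous_phase_toLp (f : Lp ℂ 2 (volume : Measure E)) :
    Continuous (fun t : ℝ => (memLp_phase_mul t (Lp.memLp f)).toLp
      (fun ξ => cexp ((4 * Real.pi ^ 2 * t * ‖ξ‖ ^ 2 : ℝ) * I) * f ξ)) := by
  rw [continuous_iff_continuousAt]
  intro t₀
  rw [ContinuousAt, tendsto_iff_norm_sub_tendsto_zero]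
  set N : ℝ → ℝ := fun t => ∫ ξ, ‖(cexp ((4 * Real.pi ^ 2 * t * ‖ξ‖ ^ 2 : ℝ) * I) -
    cexp ((4 * Real.pi ^ 2 * t₀ * ‖ξ‖ ^ 2 : ℝ) * I)) * f ξ‖ ^ 2 with hN
  have hf2 : Integrable (fun ξ => ‖f ξ‖ ^ 2) := (Lp.memLp f).integrable_norm_pow (by norm_num)
  have hNc : Continuous N := by
    rw [hN]
    apply continuous_of_dominated (bound := fun ξ => 4 * ‖f ξ‖ ^ 2)
    · intro t
      apply AEStronglyMeasurable.pow
      apply AEStronglyMeasurable.norm
      apply AEStronglyMeasurable.mul _ (Lp.aestronglyMeasurable f)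
      apply Continuous.aestronglyMeasurable
      fun_prop
    · intro t
      filter_upwards with ξ
      have h1 : ‖cexp ((4 * Real.pi ^ 2 * t * ‖ξ‖ ^ 2 : ℝ) * I) -
          cexp ((4 * Real.pi ^ 2 * t₀ * ‖ξ‖ ^ 2 : ℝ) * I)‖ ≤ 2 := by
        refine (norm_sub_le _ _).trans ?_
        have := norm_phase t ξ
        have := norm_phase t₀ ξ
        linarith
      rw [Real.norm_eq_abs, abs_of_nonneg (by positivity), norm_mul, mul_pow]
      have : ‖cexp ((4 * Real.pi ^ 2 * t * ‖ξ‖ ^ 2 : ℝ) * I) -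
          cexp ((4 * Real.pi ^ 2 * t₀ * ‖ξ‖ ^ 2 : ℝ) * I)‖ ^ 2 ≤ 2 ^ 2 := by gcongr
      calc _ ≤ 2 ^ 2 * ‖f ξ‖ ^ 2 := by gcongr
        _ = _ := by norm_num
    · exact hf2.const_mul 4
    · filter_upwards with ξ
      fun_prop
  have hN0 : N t₀ = 0 := by
    rw [hN]
    simp
  have hNeq : ∀ t, ‖(memLp_phase_mul t (Lp.memLp f)).toLp
      (fun ξ => cexp ((4 * Real.pi ^ 2 * t * ‖ξ‖ ^ 2 : ℝ) * I) * f ξ) -
      (memLp_phase_mul t₀ (Lp.memLp f)).toLp
      (fun ξ => cexp ((4 * Real.pi ^ 2 * t₀ * ‖ξ‖ ^ 2 : ℝ) * I) * f ξ)‖ = Real.sqrt (N t) := by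
    intro t
    rw [← MemLp.toLp_sub]
    have h1 := norm_toLp_sq ((memLp_phase_mul t (Lp.memLp f)).sub (memLp_phase_mul t₀ (Lp.memLp f)))
    rw [eq_comm, Real.sqrt_eq_iff_mul_self_eq (by positivity) (by positivity), ← sq]
    have h2 : ENNReal.ofReal (N t) = ∫⁻ ξ, ‖(cexp ((4 * Real.pi ^ 2 * t * ‖ξ‖ ^ 2 : ℝ) * I) -
        cexp ((4 * Real.pi ^ 2 * t₀ * ‖ξ‖ ^ 2 : ℝ) * I)) * f ξ‖ₑ ^ 2 := by
      rw [hN, ofReal_integral_eq_lintegral_ofReal]
      · congr 1
        ext ξ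
        rw [ENNReal.ofReal_pow (norm_nonneg _), ofReal_norm]
      · have h3 : MemLp (fun ξ => (cexp ((4 * Real.pi ^ 2 * t * ‖ξ‖ ^ 2 : ℝ) * I) -
            cexp ((4 * Real.pi ^ 2 * t₀ * ‖ξ‖ ^ 2 : ℝ) * I)) * f ξ) 2 (volume : Measure E) := by
          have := (memLp_phase_mul t (Lp.memLp f)).sub (memLp_phase_mul t₀ (Lp.memLp f))
          refine this.congr_norm ?_ ?_
          · apply AEStronglyMeasurable.mul _ (Lp.aestronglyMeasurable f)
            apply Continuous.aestronglyMeasurable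
            fun_prop
          · filter_upwards with ξ
            rw [Pi.sub_apply, sub_mul]
        exact h3.integrable_norm_pow (by norm_num)
      · filter_upwards with ξ
        positivity
    have h4 : ENNReal.ofReal (N t) = ENNReal.ofReal (‖((memLp_phase_mul t (Lp.memLp f)).sub
        (memLp_phase_mul t₀ (Lp.memLp f))).toLp _‖ ^ 2) := by
      rw [h1, h2]
      congr 1
      ext ξ
      rw [Pi.sub_apply, sub_mul]
    rw [ENNReal.ofReal_eq_ofReal_iff] at h4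
    · exact h4
    · rw [hN]; positivity
    · positivity
  simp_rw [hNeq]
  have : Tendsto (fun t => Real.sqrt (N t)) (𝓝 t₀) (𝓝 (Real.sqrt (N t₀))) :=
    (Real.continuous_sqrt.comp hNc).tendsto t₀
  rw [hN0, Real.sqrt_zero] at this
  exact this

theorem continuous_flow (u : Lp ℂ 2 (volume : Measure E)) : Continuous (fun t => flow t u) := by
  unfold flow
  exact (Lp.fourierTransformₗᵢ E ℂ).symm.continuous.comp (continuous_phase_toLp (𝓕 u))

end

end Pool.Agent.H52
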