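import Mathlib
import Pool.Agent.H52.Flow

/-!
Passage from band-limited data to all data.
-/

open MeasureTheory Complex Set FourierTransform Metric Filter SchwartzMap
open scoped Topology ENNReal NNReal ComplexConjugate

namespace Pool.Agent.H52

noncomputable section

set_option linter.unusedSectionVars false

variable {E : Type*} [NormedAddCommGroup E] [InnerProductSpace ℝ E] [FiniteDimensional ℝ E]
  [MeasurableSpace E] [BorelSpace E]

theorem bb_of_continuous {g : E → ℂ} (h1 : Continuous g) (h2 : HasCompactSupport g) : BB g := by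
  refine ⟨h1.measurable, ?_, ?_⟩
  · obtain ⟨C, hC⟩ := h2.exists_bound_of_continuous h1
    exact ⟨C, le_trans (norm_nonneg _) (hC 0), hC⟩
  · obtain ⟨R, hR0, hR⟩ := h2.isCompact.isBounded.subset_closedBall_lt 0 (0 : E)
    refine ⟨R, hR0.le, fun x hx => ?_⟩
    by_contra h
    have := hR (subset_tsupport _ h)
    rw [mem_closedBall_zero_iff] at this
    linarith

theorem flow_bb {g : E → ℂ} (hg : BB g) (t : ℝ) :
    (flow t (𝓕⁻ (hg.memLp_two.toLp g) : Lp ℂ 2 (volume : Measure E)) : E → ℂ) =ᵐ[volume]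
      S t g := by
  have h1 := fourierInv_toLp_ae_eq (hg.ph_mul t).integrable (hg.ph_mul t).memLp_two
  have h2 : flow t (𝓕⁻ (hg.memLp_two.toLp g) : Lp ℂ 2 (volume : Measure E)) =
      𝓕⁻ ((hg.ph_mul t).memLp_two.toLp _) := by
    rw [flow]
    congr 1
    rw [MemLp.toLp_eq_toLp_iff]
    have h3 : (𝓕 (𝓕⁻ (hg.memLp_two.toLp g) : Lp ℂ 2 (volume : Measure E)) :
      Lp ℂ 2 (volume : Measure E)) = hg.memLp_two.toLp g := by simp
    rw [h3]
    filter_upwards [hg.memLp_two.coeFn_toLp] with ξ hξ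
    rw [hξ, ph]
  rw [h2]
  have h4 : S t g = 𝓕⁻ (fun ξ => ph t ξ * g ξ) := by
    ext x
    rw [S]
  rw [h4]
  exact h1

theorem enorm_sq_le_two_mul (x y : ℂ) : ‖x‖ₑ ^ 2 ≤ 2 * ‖y‖ₑ ^ 2 + 2 * ‖x - y‖ₑ ^ 2 := by
  have h1 : ‖x‖ ^ 2 ≤ 2 * ‖y‖ ^ 2 + 2 * ‖x - y‖ ^ 2 := by
    have h2 : ‖x‖ ≤ ‖y‖ + ‖x - y‖ := by
      calc ‖x‖ = ‖y + (x - y)‖ := by congr 1; ring
        _ ≤ _ := norm_add_le _ _
    nlinarith [sq_nonneg (‖y‖ - ‖x - y‖), norm_nonneg x, norm_nonneg y, norm_nonneg (x - y)]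
  have h3 := ENNReal.ofReal_le_ofReal h1
  rw [ENNReal.ofReal_add (by positivity) (by positivity), ENNReal.ofReal_mul (by norm_num),
    ENNReal.ofReal_mul (by norm_num), ENNReal.ofReal_pow (norm_nonneg _),
    ENNReal.ofReal_pow (norm_nonneg _), ENNReal.ofReal_pow (norm_nonneg _), ofReal_norm,
    ofReal_norm, ofReal_norm] at h3
  simpa using h3

theorem obs_extend {A : E → ℝ≥0∞} (hA1 : ∀ x, A x ≤ 1) {T₁ : ℝ} {C : ℕ} (hBB : ∀ g : E → ℂ, BB g →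
      ∫⁻ ξ, ‖g ξ‖ₑ ^ 2 ≤ C * ∫⁻ t in Icc 0 T₁, (∫⁻ x, A x * ‖S t g x‖ₑ ^ 2))
    (u : Lp ℂ 2 (volume : Measure E)) :
    ∫⁻ x, ‖u x‖ₑ ^ 2 ≤ (4 * C) * ∫⁻ t in Icc 0 T₁, (∫⁻ x, A x * ‖flow t u x‖ₑ ^ 2) := by
  set O := ∫⁻ t in Icc 0 T₁, (∫⁻ x, A x * ‖flow t u x‖ₑ ^ 2) with hO
  have hnormF : ∫⁻ x, ‖u x‖ₑ ^ 2 = ∫⁻ ξ, ‖(𝓕 u : Lp ℂ 2 (volume : Measure E)) ξ‖ₑ ^ 2 := by
    have h1 := norm_toLp_sq (Lp.memLp u)
    have h2 := norm_toLp_sq (Lp.memLp (𝓕 u : Lp ℂ 2 (volume : Measure E)))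
    rw [Lp.toLp_coeFn] at h1 h2
    rw [← h1, ← h2, Lp.norm_fourier_eq]
  have key : ∀ D : ℝ≥0∞, D ≠ 0 → ∫⁻ x, ‖u x‖ₑ ^ 2 ≤
      (4 * C) * O + (4 * C * ENNReal.ofReal T₁ + 2) * D ^ 2 := by
    intro D hD
    obtain ⟨g, hg1, hg2, hg3, hg4⟩ :=
      (Lp.memLp (𝓕 u : Lp ℂ 2 (volume : Measure E))).exists_hasCompactSupport_eLpNorm_sub_le
        (by norm_num) hD
    have hg := bb_of_continuous hg3 hg1
    have hdiff : ∫⁻ ξ, ‖(𝓕 u : Lp ℂ 2 (volume : Measure E)) ξ - g ξ‖ₑ ^ 2 ≤ D ^ 2 := by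
      have h1 : eLpNorm (fun ξ => (𝓕 u : Lp ℂ 2 (volume : Measure E)) ξ - g ξ) 2 volume ^ 2 =
          ∫⁻ ξ, ‖(𝓕 u : Lp ℂ 2 (volume : Measure E)) ξ - g ξ‖ₑ ^ 2 := by
        rw [eLpNorm_eq_lintegral_rpow_enorm_toReal (by norm_num) (by norm_num)]
        simp only [ENNReal.toReal_ofNat, one_div]
        rw [← ENNReal.rpow_natCast, ← ENNReal.rpow_mul]
        norm_num
      rw [← h1]
      gcongr
      exact hg2
    set v : Lp ℂ 2 (volume : Measure E) := 𝓕⁻ (hg.memLp_two.toLp g) with hv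
    have huv : ENNReal.ofReal (‖u - v‖ ^ 2) ≤ D ^ 2 := by
      refine le_trans (le_of_eq ?_) hdiff
      rw [← norm_fourier_sub, ← lintegral_sub_toLp]
      have h3 : (𝓕 v : Lp ℂ 2 (volume : Measure E)) = hg.memLp_two.toLp g := by
        rw [hv]; simp
      rw [h3]
      apply lintegral_congr_ae
      filter_upwards [hg.memLp_two.coeFn_toLp] with ξ hξ
      rw [hξ]
    have h1 : ∫⁻ x, ‖u x‖ₑ ^ 2 ≤ 2 * (∫⁻ ξ, ‖g ξ‖ₑ ^ 2) + 2 * D ^ 2 := by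
      rw [hnormF]
      calc ∫⁻ ξ, ‖(𝓕 u : Lp ℂ 2 (volume : Measure E)) ξ‖ₑ ^ 2 ≤
          ∫⁻ ξ, (2 * ‖g ξ‖ₑ ^ 2 + 2 * ‖(𝓕 u : Lp ℂ 2 (volume : Measure E)) ξ - g ξ‖ₑ ^ 2) :=
            lintegral_mono (fun ξ => enorm_sq_le_two_mul _ _)
        _ = 2 * (∫⁻ ξ, ‖g ξ‖ₑ ^ 2) +
            2 * ∫⁻ ξ, ‖(𝓕 u : Lp ℂ 2 (volume : Measure E)) ξ - g ξ‖ₑ ^ 2 := by
            rw [lintegral_add_left, lintegral_const_mul' _ _ (by norm_num),
              lintegral_const_mul' _ _ (by norm_num)]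
            exact (hg.meas.enorm.pow_const 2).const_mul 2
        _ ≤ _ := by gcongr
    have h2 : ∀ t, ∫⁻ x, A x * ‖S t g x‖ₑ ^ 2 ≤
        2 * (∫⁻ x, A x * ‖flow t u x‖ₑ ^ 2) + 2 * D ^ 2 := by
      intro t
      calc ∫⁻ x, A x * ‖S t g x‖ₑ ^ 2 = ∫⁻ x, A x * ‖flow t v x‖ₑ ^ 2 := by
            apply lintegral_congr_ae
            filter_upwards [flow_bb hg t] with x hx
            rw [hv, hx]
        _ ≤ ∫⁻ x, (2 * (A x * ‖flow t u x‖ₑ ^ 2) + 2 * ‖flow t u x - flow t v x‖ₑ ^ 2) := by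
            apply lintegral_mono
            intro x
            simp only
            calc A x * ‖flow t v x‖ₑ ^ 2 ≤ A x * (2 * ‖flow t u x‖ₑ ^ 2 +
                  2 * ‖flow t v x - flow t u x‖ₑ ^ 2) := by
                  gcongr
                  exact enorm_sq_le_two_mul _ _
              _ = 2 * (A x * ‖flow t u x‖ₑ ^ 2) + A x * (2 * ‖flow t v x - flow t u x‖ₑ ^ 2) := by
                  ring
              _ ≤ 2 * (A x * ‖flow t u x‖ₑ ^ 2) + 1 * (2 * ‖flow t v x - flow t u x‖ₑ ^ 2) := by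
                  gcongr
                  exact hA1 x
              _ = _ := by rw [one_mul, ← enorm_neg (flow t v x - flow t u x), neg_sub]
        _ = 2 * (∫⁻ x, A x * ‖flow t u x‖ₑ ^ 2) +
            2 * ∫⁻ x, ‖flow t u x - flow t v x‖ₑ ^ 2 := by
            rw [lintegral_add_right', lintegral_const_mul' _ _ (by norm_num),
              lintegral_const_mul' _ _ (by norm_num)]
            exact ((((Lp.aestronglyMeasurable (flow t u)).sub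
              (Lp.aestronglyMeasurable (flow t v))).enorm).pow_const 2).const_mul 2
        _ ≤ _ := by
            gcongr
            rw [lintegral_sub_toLp]
            refine le_trans ?_ huv
            gcongr
            exact norm_flow_sub_le t u v
    have h3 : ∫⁻ t in Icc 0 T₁, (∫⁻ x, A x * ‖S t g x‖ₑ ^ 2) ≤
        2 * O + 2 * D ^ 2 * ENNReal.ofReal T₁ := by
      calc ∫⁻ t in Icc 0 T₁, (∫⁻ x, A x * ‖S t g x‖ₑ ^ 2) ≤
          ∫⁻ t in Icc 0 T₁, (2 * (∫⁻ x, A x * ‖flow t u x‖ₑ ^ 2) + 2 * D ^ 2) :=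
            lintegral_mono (fun t => h2 t)
        _ = _ := by
            rw [lintegral_add_right _ measurable_const, lintegral_const_mul' _ _ (by norm_num),
              lintegral_const, Measure.restrict_apply_univ, Real.volume_Icc, sub_zero]
    calc ∫⁻ x, ‖u x‖ₑ ^ 2 ≤ 2 * (∫⁻ ξ, ‖g ξ‖ₑ ^ 2) + 2 * D ^ 2 := h1
      _ ≤ 2 * (C * (2 * O + 2 * D ^ 2 * ENNReal.ofReal T₁)) + 2 * D ^ 2 := by
          gcongr
          exact (hBB g hg).trans (by gcongr)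
      _ = _ := by ring
  -- let `D` tend to zero
  by_cases hOt : (4 * (C : ℝ≥0∞)) * O = ⊤
  · rw [hOt]; exact le_top
  apply ENNReal.le_of_forall_pos_le_add
  intro ε hε _
  have hKt : (4 * (C : ℝ≥0∞) * ENNReal.ofReal T₁ + 2) ≠ ⊤ := by
    apply ENNReal.add_ne_top.2 ⟨_, by norm_num⟩
    exact ENNReal.mul_ne_top (ENNReal.mul_ne_top (by norm_num) (by simp)) (by simp)
  obtain ⟨D, hD0, hD⟩ := ENNReal.exists_nnreal_pos_mul_lt hKt (b := (ε : ℝ≥0∞))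
    (by simpa using hε.ne')
  set D' : ℝ≥0 := min D 1 with hD'
  have hD'0 : 0 < D' := by rw [hD']; exact lt_min hD0 one_pos
  refine (key (D' : ℝ≥0∞) (by simpa using hD'0.ne')).trans ?_
  gcongr
  have h5 : (D' : ℝ≥0∞) ^ 2 ≤ (D : ℝ≥0∞) := by
    rw [sq]
    calc (D' : ℝ≥0∞) * D' ≤ D * 1 := by
          gcongr
          · rw [hD']; exact min_le_left _ _
          · rw [hD']; exact_mod_cast min_le_right _ _
      _ = _ := mul_one _
  calc (4 * (C : ℝ≥0∞) * ENNReal.ofReal T₁ + 2) * (D' : ℝ≥0∞) ^ 2 ≤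
      (4 * (C : ℝ≥0∞) * ENNReal.ofReal T₁ + 2) * (D : ℝ≥0∞) := by gcongr
    _ = D * (4 * (C : ℝ≥0∞) * ENNReal.ofReal T₁ + 2) := mul_comm _ _
    _ ≤ ε := hD.le

end

end Pool.Agent.H52
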